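import Pool.Agent.helper92.GFF.Expl

/-!
Boxes `V_N`, their inner boundaries, chemical distances.
-/

namespace Pool.H92.GFF

open Function Finset
open scoped Classical

/-- The nearest neighbour graph on `ℤ²`. -/
def Z2 : SimpleGraph (ℤ × ℤ) where
  Adj u v := |u.1 - v.1| + |u.2 - v.2| = 1
  symm := ⟨fun u v h => by rw [abs_sub_comm v.1, abs_sub_comm v.2]; exact h⟩
  loopless := ⟨fun u h => by simp at h⟩

/-- The `N × N` box `V_N`, centred at `0` for odd `N` and at `(1/2,1/2)` for even `N`. -/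
noncomputable def box (N : ℕ) : Finset (ℤ × ℤ) :=
  Finset.Icc (-(((N : ℤ) - 1) / 2)) ((N : ℤ) / 2) ×ˢ
    Finset.Icc (-(((N : ℤ) - 1) / 2)) ((N : ℤ) / 2)

/-- The inner boundary `∂V_N`. -/
noncomputable def bd (N : ℕ) : Finset (ℤ × ℤ) :=
  (box N).filter (fun v => ∃ u, Z2.Adj v u ∧ u ∉ box N)

/-- `V_N \ ∂V_N`. -/
noncomputable def inn (N : ℕ) : Finset (ℤ × ℤ) := box N \ bd N

/-- The open vertices `{v ∈ V_N : x_v ≤ lam}`. -/
def openSet (N : ℕ) (x : ℤ × ℤ → ℝ) (lam : ℝ) : Set (ℤ × ℤ) := {v | v ∈ box N ∧ x v ≤ lam}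

/-- The chemical distance between `A` and `B`: the smallest graph distance, in the subgraph of
`ℤ²` induced on the open vertices of `V_N`, between an open vertex of `A` and an open vertex of
`B` (`⊤` if there are none or if they are never connected). -/
noncomputable def chem (N : ℕ) (x : ℤ × ℤ → ℝ) (lam : ℝ) (A B : Set (ℤ × ℤ)) : ℕ∞ :=
  ⨅ (u : openSet N x lam) (v : openSet N x lam) (_ : (u : ℤ × ℤ) ∈ A) (_ : (v : ℤ × ℤ) ∈ B),
    (Z2.induce (openSet N x lam)).edist u v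

lemma mem_box {N : ℕ} {v : V} : v ∈ box N ↔ (-(((N : ℤ) - 1) / 2) ≤ v.1 ∧ v.1 ≤ (N : ℤ) / 2) ∧
    (-(((N : ℤ) - 1) / 2) ≤ v.2 ∧ v.2 ≤ (N : ℤ) / 2) := by
  simp [box]

lemma adj_iff {u v : V} : Z2.Adj u v ↔ v ∈ nb u := by
  obtain ⟨a, b⟩ := u
  obtain ⟨c, d⟩ := v
  simp only [Z2, nb, Finset.mem_insert, Finset.mem_singleton, Prod.mk.injEq]
  constructor
  · intro h
    rcases abs_cases (a - c) with h1 | h1 <;> rcases abs_cases (b - d) with h2 | h2 <;> omega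
  · intro h
    rcases abs_cases (a - c) with h1 | h1 <;> rcases abs_cases (b - d) with h2 | h2 <;> omega

lemma mem_bd {N : ℕ} {v : V} : v ∈ bd N ↔ v ∈ box N ∧
    (v.1 = -(((N : ℤ) - 1) / 2) ∨ v.1 = (N : ℤ) / 2 ∨
      v.2 = -(((N : ℤ) - 1) / 2) ∨ v.2 = (N : ℤ) / 2) := by
  unfold bd
  rw [Finset.mem_filter]
  refine and_congr_right (fun hv => ?_)
  rw [mem_box] at hv
  constructor
  · rintro ⟨u, hu, hub⟩
    rw [adj_iff] at hu
    simp only [nb, Finset.mem_insert, Finset.mem_singleton] at hu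
    rw [mem_box] at hub
    rcases hu with rfl | rfl | rfl | rfl <;> simp only at hub <;> omega
  · rintro (h | h | h | h)
    · exact ⟨(v.1 - 1, v.2), by rw [adj_iff]; simp [nb], by rw [mem_box]; simp only; omega⟩
    · exact ⟨(v.1 + 1, v.2), by rw [adj_iff]; simp [nb], by rw [mem_box]; simp only; omega⟩
    · exact ⟨(v.1, v.2 - 1), by rw [adj_iff]; simp [nb], by rw [mem_box]; simp only; omega⟩
    · exact ⟨(v.1, v.2 + 1), by rw [adj_iff]; simp [nb], by rw [mem_box]; simp only; omega⟩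

lemma mem_inn {N : ℕ} {v : V} : v ∈ inn N ↔ (-(((N : ℤ) - 1) / 2) < v.1 ∧ v.1 < (N : ℤ) / 2) ∧
    (-(((N : ℤ) - 1) / 2) < v.2 ∧ v.2 < (N : ℤ) / 2) := by
  unfold inn
  rw [Finset.mem_sdiff, mem_bd, mem_box]
  constructor
  · rintro ⟨h1, h2⟩
    rw [not_and] at h2
    have := h2 h1
    omega
  · rintro h
    refine ⟨by omega, by omega⟩

lemma inn_subset_box (N : ℕ) : inn N ⊆ box N := Finset.sdiff_subset
lemma bd_subset_box (N : ℕ) : bd N ⊆ box N := Finset.filter_subset _ _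

lemma nb_subset_box {N : ℕ} {v : V} (hv : v ∈ box N) (hv' : v ∉ bd N) : nb v ⊆ box N := by
  intro w hw
  by_contra h
  exact hv' (Finset.mem_filter.2 ⟨hv, w, adj_iff.2 hw, h⟩)

lemma box_mono {M N : ℕ} (h : M ≤ N) : box M ⊆ box N := by
  intro v hv
  rw [mem_box] at hv ⊢
  omega

lemma box_subset_inn {M N : ℕ} (h : M + 2 ≤ N) : box M ⊆ inn N := by
  intro v hv
  rw [mem_box] at hv
  rw [mem_inn]
  omega

lemma card_box (N : ℕ) : (box N).card = N ^ 2 := by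
  unfold box
  rw [Finset.card_product, Int.card_Icc]
  have : ((N : ℤ) / 2 + 1 - -(((N : ℤ) - 1) / 2)).toNat = N := by omega
  rw [this]; ring

/-- distance in the induced graph along the exploration -/
lemma Fs_edist {N : ℕ} {x : V → ℝ} {lam : ℝ} {U S : Finset V} (hU : U ⊆ box N) (hS : S ⊆ U)
    (r : ℕ) : ∀ v ∈ Fs U S (fun v => x v ≤ lam) r, ∃ hv : v ∈ openSet N x lam,
      ∃ u : openSet N x lam, (u : V) ∈ S ∧
        (Z2.induce (openSet N x lam)).edist u ⟨v, hv⟩ ≤ (r : ℕ∞) := by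
  induction r with
  | zero =>
    intro v hv
    rw [Fs_zero, Finset.mem_filter] at hv
    refine ⟨⟨hU (hS hv.1), hv.2⟩, ⟨v, ⟨hU (hS hv.1), hv.2⟩⟩, hv.1, ?_⟩
    simp
  | succ r ih =>
    intro v hv
    have hvo : x v ≤ lam := Fs_open hv
    rw [Fs_succ, Finset.mem_filter, Finset.mem_sdiff] at hv
    obtain ⟨⟨hv1, hv2⟩, _⟩ := hv
    rw [Bs_succ, Finset.mem_union] at hv1
    have hv3 := hv1.resolve_left hv2
    obtain ⟨hv4, hvU⟩ := Finset.mem_inter.1 hv3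
    obtain ⟨w, hw, hvw⟩ := Finset.mem_biUnion.1 hv4
    obtain ⟨hwo, u, huS, hu⟩ := ih w hw
    refine ⟨⟨hU hvU, hvo⟩, u, huS, ?_⟩
    have hadj : (Z2.induce (openSet N x lam)).Adj ⟨w, hwo⟩ ⟨v, ⟨hU hvU, hvo⟩⟩ := by
      rw [SimpleGraph.induce_adj]
      exact adj_iff.2 hvw
    calc (Z2.induce (openSet N x lam)).edist u ⟨v, ⟨hU hvU, hvo⟩⟩
        ≤ (Z2.induce (openSet N x lam)).edist u ⟨w, hwo⟩ +
          (Z2.induce (openSet N x lam)).edist ⟨w, hwo⟩ ⟨v, ⟨hU hvU, hvo⟩⟩ :=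
          SimpleGraph.edist_triangle
      _ ≤ r + 1 := by
          refine add_le_add hu ?_
          rw [SimpleGraph.edist_eq_one_iff_adj.2 hadj]
      _ = ((r + 1 : ℕ) : ℕ∞) := by push_cast; rfl

/-- the exploration reaches `T` within `R` steps -/
def Reach (U S T : Finset V) (x : V → ℝ) (lam : ℝ) (R : ℕ) : Prop :=
  ∃ v ∈ T, x v ≤ lam ∧ v ∈ Bs U S (fun v => x v ≤ lam) R

lemma chem_le_of_reach {N : ℕ} {x : V → ℝ} {lam : ℝ} {U S T : Finset V} (hU : U ⊆ box N)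
    (hS : S ⊆ U) {R : ℕ} (h : Reach U S T x lam R) : chem N x lam S T ≤ (R : ℕ∞) := by
  obtain ⟨v, hvT, hvo, hvB⟩ := h
  obtain ⟨s, hs, hvs⟩ := mem_Fs_of_open hvB hvo
  obtain ⟨hv, u, huS, hu⟩ := Fs_edist hU hS s v hvs
  unfold chem
  refine le_trans ?_ (hu.trans (show (s : ℕ∞) ≤ (R : ℕ∞) by exact_mod_cast hs))
  refine iInf_le_of_le u (iInf_le_of_le ⟨v, hv⟩ (iInf_le_of_le (by exact_mod_cast huS)
    (iInf_le_of_le (by exact_mod_cast hvT) le_rfl)))

lemma disjoint_of_not_reach {U S T : Finset V} {x : V → ℝ} {lam : ℝ} {R : ℕ}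
    (h : ¬ Reach U S T x lam R) : ∀ s ≤ R, Disjoint (Fs U S (fun v => x v ≤ lam) s) T := by
  intro s hs
  rw [Finset.disjoint_left]
  intro v hv hvT
  exact h ⟨v, hvT, Fs_open hv, Bs_mono hs (Fs_subset s hv)⟩

lemma Bs_mono_open {U S : Finset V} {o o' : V → Prop} (h : ∀ v ∈ U, o v → o' v) (hS : S ⊆ U)
    (r : ℕ) : Bs U S o r ⊆ Bs U S o' r := by
  induction r with
  | zero => exact Finset.Subset.refl _
  | succ r ih =>
    rw [Bs_succ]
    refine Finset.union_subset (ih.trans (Bs_mono_succ r)) ?_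
    intro v hv
    obtain ⟨hv4, hvU⟩ := Finset.mem_inter.1 hv
    obtain ⟨w, hw, hvw⟩ := Finset.mem_biUnion.1 hv4
    have hwB := Fs_subset r hw
    have how : o' w := h w (Bs_subset hS r hwB) (Fs_open hw)
    obtain ⟨s, hs, hws⟩ := mem_Fs_of_open (ih hwB) how
    have : v ∈ Bs U S o' (s + 1) := by
      rw [Bs_succ]
      exact Finset.mem_union_right _ (Finset.mem_inter.2 ⟨Finset.mem_biUnion.2 ⟨w, hws, hvw⟩, hvU⟩)
    exact Bs_mono (by omega) this

lemma Reach.mono {U S T : Finset V} (hS : S ⊆ U) (hT : T ⊆ U) {x y : V → ℝ} {lam lam' : ℝ}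
    {R : ℕ} (h : Reach U S T x lam R) (hxy : ∀ v ∈ U, x v ≤ lam → y v ≤ lam') :
    Reach U S T y lam' R := by
  obtain ⟨v, hvT, hvo, hvB⟩ := h
  exact ⟨v, hvT, hxy v (hT hvT) hvo, Bs_mono_open hxy hS R hvB⟩

/-- the straight crossing when everything is open -/
lemma chem_le_all_open {N M K : ℕ} {x : V → ℝ} {lam : ℝ} (hM : 1 ≤ M) (hMK : M ≤ K)
    (hKN : K ≤ N) (h : ∀ v ∈ box N, x v ≤ lam) : chem N x lam (bd M) (bd K) ≤ (N : ℕ∞) := by
  have key : ∀ n : ℕ, (M : ℤ) / 2 + n ≤ (K : ℤ) / 2 →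
      ∃ (h1 : (((M : ℤ) / 2, (M : ℤ) / 2) : V) ∈ openSet N x lam)
        (h2 : (((M : ℤ) / 2 + n, (M : ℤ) / 2) : V) ∈ openSet N x lam),
      (Z2.induce (openSet N x lam)).edist ⟨_, h1⟩ ⟨_, h2⟩ ≤ (n : ℕ∞) := by
    intro n
    induction n with
    | zero =>
      intro hn
      have h1 : (((M : ℤ) / 2, (M : ℤ) / 2) : V) ∈ openSet N x lam := by
        have : (((M : ℤ) / 2, (M : ℤ) / 2) : V) ∈ box N := by
          rw [mem_box]; simp only; omega
        exact ⟨this, h _ this⟩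
      have h2 : (((M : ℤ) / 2 + ((0 : ℕ) : ℤ), (M : ℤ) / 2) : V) ∈ openSet N x lam := by
        simpa using h1
      refine ⟨h1, h2, ?_⟩
      have : (⟨_, h1⟩ : openSet N x lam) = ⟨_, h2⟩ := by ext <;> simp
      rw [this]; simp
    | succ n ih =>
      intro hn
      obtain ⟨h1, h2, h3⟩ := ih (by push_cast at hn; omega)
      have h4 : (((M : ℤ) / 2 + ((n + 1 : ℕ) : ℤ), (M : ℤ) / 2) : V) ∈ openSet N x lam := by
        have : (((M : ℤ) / 2 + ((n + 1 : ℕ) : ℤ), (M : ℤ) / 2) : V) ∈ box N := by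
          rw [mem_box]; simp only; push_cast at hn ⊢; omega
        exact ⟨this, h _ this⟩
      refine ⟨h1, h4, ?_⟩
      have hadj : (Z2.induce (openSet N x lam)).Adj ⟨_, h2⟩ ⟨_, h4⟩ := by
        rw [SimpleGraph.induce_adj, adj_iff]
        simp only [nb, Finset.mem_insert, Prod.mk.injEq]
        left
        constructor
        · push_cast; ring
        · trivial
      calc _ ≤ (Z2.induce (openSet N x lam)).edist ⟨_, h1⟩ ⟨_, h2⟩ +
          (Z2.induce (openSet N x lam)).edist ⟨_, h2⟩ ⟨_, h4⟩ :=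
          SimpleGraph.edist_triangle
        _ ≤ n + 1 := by
          refine add_le_add h3 ?_
          rw [SimpleGraph.edist_eq_one_iff_adj.2 hadj]
        _ = ((n + 1 : ℕ) : ℕ∞) := by push_cast; rfl
  obtain ⟨n, hn⟩ : ∃ n : ℕ, (M : ℤ) / 2 + n = (K : ℤ) / 2 :=
    ⟨((K : ℤ) / 2 - (M : ℤ) / 2).toNat, by omega⟩
  obtain ⟨h1, h2, h3⟩ := key n hn.le
  unfold chem
  refine le_trans ?_ (h3.trans (show (n : ℕ∞) ≤ (N : ℕ∞) by
    have : n ≤ N := by omega
    exact_mod_cast this))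
  refine iInf_le_of_le ⟨_, h1⟩ (iInf_le_of_le ⟨_, h2⟩ (iInf_le_of_le ?_
    (iInf_le_of_le ?_ le_rfl)))
  · have : (((M : ℤ) / 2, (M : ℤ) / 2) : V) ∈ bd M := by
      rw [mem_bd, mem_box]
      exact ⟨⟨⟨by simp only; omega, by simp only; omega⟩,
        ⟨by simp only; omega, by simp only; omega⟩⟩, Or.inr (Or.inl rfl)⟩
    exact_mod_cast this
  · have : (((M : ℤ) / 2 + (n : ℤ), (M : ℤ) / 2) : V) ∈ bd K := by
      rw [mem_bd, mem_box]; simp only; omega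
    exact_mod_cast this

end Pool.H92.GFF
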