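import Pool.Agent.helper92.GFF.Box

/-!
Deterministic estimates: capacities of boxes, Pólya's bound on the Green function.
-/

namespace Pool.H92.GFF

open Function Finset
open scoped Classical

lemma supp_of_inn {N : ℕ} {f : V → ℝ} (hf : ∀ v ∉ inn N, f v = 0) : (support f).Finite :=
  ((inn N).finite_toSet).subset (fun v hv => by
    by_contra h
    exact hv (hf v (by simpa using h)))

/-- lower bound of a capacity -/
lemma cp_lower {M N : ℕ} (hM : 1 ≤ M) (hMN : M + 2 ≤ N) :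
    (M : ℝ) / N ≤ cp (inn N) (bd M) := by
  have hSI : bd M ⊆ inn N := (bd_subset_box M).trans (box_subset_inn hMN)
  set f := eqp (inn N) (bd M) with hf
  have hs := D_summable (f := f) (eqp_support hSI)
  set m : ℕ := ((N : ℤ) / 2 - (M : ℤ) / 2).toNat with hm
  have hmz : (m : ℤ) = (N : ℤ) / 2 - (M : ℤ) / 2 := by omega
  have hmpos : 0 < m := by omega
  have hmN : m ≤ N := by omega
  set Y : Finset ℤ := Finset.Icc (-(((M : ℤ) - 1) / 2)) ((M : ℤ) / 2) with hY
  have hYc : Y.card = M := by rw [hY, Int.card_Icc]; omega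
  -- rows
  have hrow : ∀ y ∈ Y, (1 : ℝ) / m ≤ ∑ i ∈ Finset.range m,
      (f ((M : ℤ) / 2 + (i : ℤ) + 1, y) - f ((M : ℤ) / 2 + (i : ℤ), y)) ^ 2 := by
    intro y hy
    rw [hY, Finset.mem_Icc] at hy
    have h1 : f ((M : ℤ) / 2, y) = 1 := by
      apply eqp_one
      rw [mem_bd, mem_box]
      exact ⟨⟨⟨by simp only; omega, by simp only; omega⟩,
        ⟨by simp only; omega, by simp only; omega⟩⟩, Or.inr (Or.inl rfl)⟩
    have h0 : f ((M : ℤ) / 2 + (m : ℤ), y) = 0 := by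
      apply eqp_zero hSI
      rw [mem_inn]
      simp only
      omega
    have htel : ∑ i ∈ Finset.range m,
        (f ((M : ℤ) / 2 + (i : ℤ) + 1, y) - f ((M : ℤ) / 2 + (i : ℤ), y)) = -1 := by
      have := Finset.sum_range_sub (fun i : ℕ => f ((M : ℤ) / 2 + (i : ℤ), y)) m
      simp only [Nat.cast_zero, add_zero] at this
      rw [h1, h0] at this
      rw [show (-1 : ℝ) = 0 - 1 by norm_num, ← this]
      refine Finset.sum_congr rfl (fun i _ => ?_)
      push_cast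
      rw [add_assoc]
    have hcs := sq_sum_le_card_mul_sum_sq (s := Finset.range m)
      (f := fun i : ℕ => f ((M : ℤ) / 2 + (i : ℤ) + 1, y) - f ((M : ℤ) / 2 + (i : ℤ), y))
    rw [htel, Finset.card_range] at hcs
    have hmr : (0 : ℝ) < m := by exact_mod_cast hmpos
    rw [div_le_iff₀ hmr]
    nlinarith
  -- the grid
  set A : Finset V := (Finset.range m ×ˢ Y).image (fun p => ((M : ℤ) / 2 + (p.1 : ℤ), p.2)) with hA
  have hinj : Set.InjOn (fun p : ℕ × ℤ => (((M : ℤ) / 2 + (p.1 : ℤ), p.2) : V))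
      (Finset.range m ×ˢ Y : Finset (ℕ × ℤ)) := by
    rintro ⟨a, b⟩ _ ⟨c, d⟩ _ h
    simp only [Prod.mk.injEq] at h
    ext
    · simp only; omega
    · exact h.2
  have h1 : ∑ v ∈ A, ((f (v.1 + 1, v.2) - f v) * (f (v.1 + 1, v.2) - f v)
      + (f (v.1, v.2 + 1) - f v) * (f (v.1, v.2 + 1) - f v)) ≤ D f f :=
    hs.sum_le_tsum _ (fun v _ => add_nonneg (mul_self_nonneg _) (mul_self_nonneg _))
  have h2 : ∑ y ∈ Y, ∑ i ∈ Finset.range m,
      (f ((M : ℤ) / 2 + (i : ℤ) + 1, y) - f ((M : ℤ) / 2 + (i : ℤ), y)) ^ 2 ≤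
      ∑ v ∈ A, ((f (v.1 + 1, v.2) - f v) * (f (v.1 + 1, v.2) - f v)
      + (f (v.1, v.2 + 1) - f v) * (f (v.1, v.2 + 1) - f v)) := by
    rw [hA, Finset.sum_image hinj, Finset.sum_comm, Finset.sum_product]
    refine Finset.sum_le_sum (fun i _ => Finset.sum_le_sum (fun y _ => ?_))
    simp only
    nlinarith [mul_self_nonneg (f ((M : ℤ) / 2 + (i : ℤ), y + 1) - f ((M : ℤ) / 2 + (i : ℤ), y))]
  have h3 : (M : ℝ) / m ≤ ∑ y ∈ Y, ∑ i ∈ Finset.range m,
      (f ((M : ℤ) / 2 + (i : ℤ) + 1, y) - f ((M : ℤ) / 2 + (i : ℤ), y)) ^ 2 := by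
    calc (M : ℝ) / m = ∑ y ∈ Y, (1 : ℝ) / m := by
          rw [Finset.sum_const, hYc, nsmul_eq_mul]; ring
      _ ≤ _ := Finset.sum_le_sum hrow
  have h4 : (M : ℝ) / N ≤ (M : ℝ) / m := by
    apply div_le_div_of_nonneg_left (by positivity) (by exact_mod_cast hmpos)
    exact_mod_cast hmN
  exact h4.trans (h3.trans (h2.trans h1))

/-- the cutoff function -/
noncomputable def cutg (N d : ℕ) (x : ℤ) : ℝ :=
  max 0 (min 1 ((min (x + ((N : ℤ) - 1) / 2) ((N : ℤ) / 2 - x) : ℤ) / (d : ℝ)))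

noncomputable def cut (N d : ℕ) (v : V) : ℝ := cutg N d v.1 * cutg N d v.2

lemma cutg_nonneg (N d : ℕ) (x : ℤ) : 0 ≤ cutg N d x := le_max_left _ _
lemma cutg_le_one (N d : ℕ) (x : ℤ) : cutg N d x ≤ 1 :=
  max_le (by norm_num) (min_le_left _ _)

lemma cutg_lip {N d : ℕ} (hd : 1 ≤ d) (x : ℤ) : |cutg N d (x + 1) - cutg N d x| ≤ 1 / d := by
  have hd' : (0 : ℝ) < d := by exact_mod_cast hd
  unfold cutg
  set k' : ℤ := min (x + 1 + ((N : ℤ) - 1) / 2) ((N : ℤ) / 2 - (x + 1)) with hk'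
  set k : ℤ := min (x + ((N : ℤ) - 1) / 2) ((N : ℤ) / 2 - x) with hk
  have h1 := abs_max_sub_max_le_max (0 : ℝ) (min 1 ((k' : ℝ) / d)) 0 (min 1 ((k : ℝ) / d))
  have h2 := abs_min_sub_min_le_max (1 : ℝ) ((k' : ℝ) / d) 1 ((k : ℝ) / d)
  have h3 : |(k' : ℝ) / d - (k : ℝ) / d| ≤ 1 / d := by
    rw [← sub_div, abs_div, abs_of_pos hd']
    apply div_le_div_of_nonneg_right _ hd'.le
    have : |k' - k| ≤ 1 := by
      rw [abs_le]; omega
    have := (Int.cast_le (R := ℝ)).2 this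
    push_cast at this
    exact this
  have h0 : (0 : ℝ) ≤ 1 / d := by positivity
  simp only [sub_self, abs_zero] at h1 h2
  refine h1.trans (max_le h0 (h2.trans (max_le h0 h3)))

lemma cutg_zero {N d : ℕ} {x : ℤ} (h : x ≤ -(((N : ℤ) - 1) / 2) ∨ (N : ℤ) / 2 ≤ x) :
    cutg N d x = 0 := by
  unfold cutg
  apply max_eq_left
  refine (min_le_right _ _).trans ?_
  apply div_nonpos_of_nonpos_of_nonneg _ (by positivity)
  have : min (x + ((N : ℤ) - 1) / 2) ((N : ℤ) / 2 - x) ≤ 0 := by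
    rcases h with h | h
    · exact (min_le_left _ _).trans (by omega)
    · exact (min_le_right _ _).trans (by omega)
  exact_mod_cast this

lemma cutg_one {N d : ℕ} (hd : 1 ≤ d) {x : ℤ} (h1 : (d : ℤ) ≤ x + ((N : ℤ) - 1) / 2)
    (h2 : (d : ℤ) ≤ (N : ℤ) / 2 - x) : cutg N d x = 1 := by
  have hd' : (0 : ℝ) < d := by exact_mod_cast hd
  unfold cutg
  have : (1 : ℝ) ≤ ((min (x + ((N : ℤ) - 1) / 2) ((N : ℤ) / 2 - x) : ℤ) : ℝ) / d := by
    rw [le_div_iff₀ hd', one_mul]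
    have : (d : ℤ) ≤ min (x + ((N : ℤ) - 1) / 2) ((N : ℤ) / 2 - x) := le_min h1 h2
    exact_mod_cast this
  rw [min_eq_left this]
  norm_num

lemma cut_zero {N d : ℕ} {v : V} (hv : v ∉ inn N) : cut N d v = 0 := by
  unfold cut
  rw [mem_inn] at hv
  by_cases h1 : v.1 ≤ -(((N : ℤ) - 1) / 2) ∨ (N : ℤ) / 2 ≤ v.1
  · rw [cutg_zero h1, zero_mul]
  · rw [cutg_zero (x := v.2) (by omega), mul_zero]

lemma cut_one {N K d : ℕ} (hd : 1 ≤ d) (h : K + 2 * d ≤ N) {v : V} (hv : v ∈ box K) :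
    cut N d v = 1 := by
  unfold cut
  rw [mem_box] at hv
  rw [cutg_one hd (by omega) (by omega), cutg_one hd (by omega) (by omega), one_mul]

lemma cut_nonneg (N d : ℕ) (v : V) : 0 ≤ cut N d v :=
  mul_nonneg (cutg_nonneg _ _ _) (cutg_nonneg _ _ _)

lemma D_cut {N d : ℕ} (hd : 1 ≤ d) : D (cut N d) (cut N d) ≤ 2 * (N : ℝ) ^ 2 / (d : ℝ) ^ 2 := by
  have hd' : (0 : ℝ) < d := by exact_mod_cast hd
  unfold D
  rw [tsum_eq_sum (s := box N)]
  · calc ∑ v ∈ box N, ((cut N d (v.1 + 1, v.2) - cut N d v) * (cut N d (v.1 + 1, v.2) - cut N d v) +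
          (cut N d (v.1, v.2 + 1) - cut N d v) * (cut N d (v.1, v.2 + 1) - cut N d v))
        ≤ ∑ v ∈ box N, (2 / (d : ℝ) ^ 2) := by
          refine Finset.sum_le_sum (fun v _ => ?_)
          have e1 : |cut N d (v.1 + 1, v.2) - cut N d v| ≤ 1 / d := by
            unfold cut
            rw [← sub_mul, abs_mul, abs_of_nonneg (cutg_nonneg N d v.2)]
            exact (mul_le_of_le_one_right (abs_nonneg _) (cutg_le_one _ _ _)).trans (cutg_lip hd _)
          have e2 : |cut N d (v.1, v.2 + 1) - cut N d v| ≤ 1 / d := by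
            unfold cut
            rw [← mul_sub, abs_mul, abs_of_nonneg (cutg_nonneg N d v.1)]
            exact (mul_le_of_le_one_left (abs_nonneg _) (cutg_le_one _ _ _)).trans (cutg_lip hd _)
          have f1 : (cut N d (v.1 + 1, v.2) - cut N d v) ^ 2 ≤ (1 / (d : ℝ)) ^ 2 := by
            rw [← sq_abs]; exact pow_le_pow_left₀ (abs_nonneg _) e1 2
          have f2 : (cut N d (v.1, v.2 + 1) - cut N d v) ^ 2 ≤ (1 / (d : ℝ)) ^ 2 := by
            rw [← sq_abs]; exact pow_le_pow_left₀ (abs_nonneg _) e2 2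
          have : (2 : ℝ) / (d : ℝ) ^ 2 = (1 / (d : ℝ)) ^ 2 + (1 / (d : ℝ)) ^ 2 := by
            rw [one_div, inv_pow]; ring
          rw [this]
          nlinarith
      _ = 2 * (N : ℝ) ^ 2 / (d : ℝ) ^ 2 := by
          rw [Finset.sum_const, card_box, nsmul_eq_mul]; push_cast; ring
  · intro v hv
    rw [mem_box] at hv
    have h0 : cut N d v = 0 := cut_zero (by rw [mem_inn]; omega)
    have h1 : cut N d (v.1 + 1, v.2) = 0 := cut_zero (by rw [mem_inn]; simp only; omega)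
    have h2 : cut N d (v.1, v.2 + 1) = 0 := cut_zero (by rw [mem_inn]; simp only; omega)
    rw [h0, h1, h2]; ring

/-- Pólya's bound -/
lemma polya {N : ℕ} (f : V → ℝ) (hf : ∀ v ∉ inn N, f v = 0) (v : V) (hv : v ∈ inn N) :
    f v ^ 2 ≤ (1 + Real.log (2 * N)) * D f f := by
  have hN : 1 ≤ N := by
    rw [mem_inn] at hv; omega
  set g : ℕ × ℕ → ℝ := fun p => f (v.1 + p.1, v.2 + p.2) with hg
  set A : ℕ → ℝ := fun k => (∑ p ∈ HasAntidiagonal.antidiagonal k, g p) / (k + 1) with hA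
  -- weights
  have hstep : ∀ k : ℕ, A (k + 1) - A k = ∑ p ∈ HasAntidiagonal.antidiagonal k,
      ((p.1 + 1 : ℝ) / ((k + 1) * (k + 2)) * (g (p.1 + 1, p.2) - g p) +
        (p.2 + 1 : ℝ) / ((k + 1) * (k + 2)) * (g (p.1, p.2 + 1) - g p)) := by
    intro k
    have hk1 : (k : ℝ) + 1 ≠ 0 := by positivity
    have hk2 : (k : ℝ) + 2 ≠ 0 := by positivity
    have e1 : ((k : ℝ) + 1) * ∑ p ∈ HasAntidiagonal.antidiagonal (k + 1), g p =
        ∑ p ∈ HasAntidiagonal.antidiagonal k, ((p.1 + 1 : ℝ) * g (p.1 + 1, p.2)) +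
        ∑ p ∈ HasAntidiagonal.antidiagonal k, ((p.2 + 1 : ℝ) * g (p.1, p.2 + 1)) := by
      have a1 := Finset.Nat.sum_antidiagonal_succ (n := k) (f := fun p : ℕ × ℕ => (p.1 : ℝ) * g p)
      have a2 := Finset.Nat.sum_antidiagonal_succ' (n := k) (f := fun p : ℕ × ℕ => (p.2 : ℝ) * g p)
      simp only [Nat.cast_zero, zero_mul, zero_add, Nat.cast_add, Nat.cast_one] at a1 a2
      rw [← a1, ← a2, ← Finset.sum_add_distrib, Finset.mul_sum]
      refine Finset.sum_congr rfl (fun p hp => ?_)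
      have := HasAntidiagonal.mem_antidiagonal.1 hp
      have : (p.1 : ℝ) + p.2 = k + 1 := by exact_mod_cast this
      rw [← this]; ring
    have e2 : ∑ p ∈ HasAntidiagonal.antidiagonal k,
      ((p.1 + 1 : ℝ) / ((k + 1) * (k + 2)) * (g (p.1 + 1, p.2) - g p) +
        (p.2 + 1 : ℝ) / ((k + 1) * (k + 2)) * (g (p.1, p.2 + 1) - g p)) =
        (1 / (((k : ℝ) + 1) * (k + 2))) * (∑ p ∈ HasAntidiagonal.antidiagonal k, ((p.1 + 1 : ℝ) * g (p.1 + 1, p.2)) +
        ∑ p ∈ HasAntidiagonal.antidiagonal k, ((p.2 + 1 : ℝ) * g (p.1, p.2 + 1))) -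
        (1 / ((k : ℝ) + 1)) * ∑ p ∈ HasAntidiagonal.antidiagonal k, g p := by
      rw [← Finset.sum_add_distrib, Finset.mul_sum, Finset.mul_sum, ← Finset.sum_sub_distrib]
      refine Finset.sum_congr rfl (fun p hp => ?_)
      have := HasAntidiagonal.mem_antidiagonal.1 hp
      have : (p.1 : ℝ) + p.2 = k := by exact_mod_cast this
      have h3 : (p.2 : ℝ) = k - p.1 := by linarith
      rw [h3]
      field_simp
      ring
    rw [e2, ← e1]
    simp only [hA]
    push_cast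
    field_simp
    ring
  set T : Finset (Σ _ : ℕ, ℕ × ℕ) := (Finset.range (2 * N)).sigma
    (fun k => HasAntidiagonal.antidiagonal k) with hT
  set a : (Σ _ : ℕ, ℕ × ℕ) → ℝ := fun t =>
    ((t.2.1 + 1 : ℝ) / ((t.1 + 1) * (t.1 + 2))) ^ 2 +
      ((t.2.2 + 1 : ℝ) / ((t.1 + 1) * (t.1 + 2))) ^ 2 with ha
  set b : (Σ _ : ℕ, ℕ × ℕ) → ℝ := fun t =>
    (g (t.2.1 + 1, t.2.2) - g t.2) ^ 2 + (g (t.2.1, t.2.2 + 1) - g t.2) ^ 2 with hb
  set s : (Σ _ : ℕ, ℕ × ℕ) → ℝ := fun t =>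
    ((t.2.1 + 1 : ℝ) / ((t.1 + 1) * (t.1 + 2)) * (g (t.2.1 + 1, t.2.2) - g t.2) +
        (t.2.2 + 1 : ℝ) / ((t.1 + 1) * (t.1 + 2)) * (g (t.2.1, t.2.2 + 1) - g t.2)) with hs
  have hA0 : A 0 = f v := by simp [hA, hg]
  have hAN : A (2 * N) = 0 := by
    simp only [hA]
    rw [Finset.sum_eq_zero, zero_div]
    intro p hp
    have := HasAntidiagonal.mem_antidiagonal.1 hp
    simp only [hg]
    apply hf
    rw [mem_inn] at hv ⊢
    simp only
    omega
  have hsum : f v = - ∑ t ∈ T, s t := by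
    have h1 := Finset.sum_range_sub A (2 * N)
    rw [hA0, hAN] at h1
    have h2 : ∑ t ∈ T, s t = ∑ i ∈ Finset.range (2 * N), (A (i + 1) - A i) := by
      rw [hT, Finset.sum_sigma]
      exact Finset.sum_congr rfl (fun k _ => (hstep k).symm)
    rw [h2, h1]; ring
  have hcs : (∑ t ∈ T, s t) ^ 2 ≤ (∑ t ∈ T, a t) * (∑ t ∈ T, b t) := by
    have h1 : |∑ t ∈ T, s t| ≤ ∑ t ∈ T, √(a t) * √(b t) := by
      refine (Finset.abs_sum_le_sum_abs _ _).trans (Finset.sum_le_sum (fun t _ => ?_))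
      rw [← Real.sqrt_mul (by simp only [ha]; positivity)]
      apply Real.abs_le_sqrt
      simp only [ha, hb, hs]
      nlinarith [sq_nonneg (((t.2.1 + 1 : ℝ) / ((t.1 + 1) * (t.1 + 2))) * (g (t.2.1, t.2.2 + 1) - g t.2) -
        ((t.2.2 + 1 : ℝ) / ((t.1 + 1) * (t.1 + 2))) * (g (t.2.1 + 1, t.2.2) - g t.2))]
    have h2 : ∑ t ∈ T, √(a t) * √(b t) ≤ √(∑ t ∈ T, a t) * √(∑ t ∈ T, b t) :=
      Real.sum_sqrt_mul_sqrt_le _ (fun t => by simp only [ha]; positivity)
        (fun t => by simp only [hb]; positivity)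
    have h3 := h1.trans h2
    rw [← Real.sqrt_mul (Finset.sum_nonneg (fun t _ => by simp only [ha]; positivity))] at h3
    rw [← sq_abs]
    calc |∑ t ∈ T, s t| ^ 2 ≤ (√((∑ t ∈ T, a t) * (∑ t ∈ T, b t))) ^ 2 :=
          pow_le_pow_left₀ (abs_nonneg _) h3 2
      _ = _ := Real.sq_sqrt (mul_nonneg
          (Finset.sum_nonneg (fun t _ => by simp only [ha]; positivity))
          (Finset.sum_nonneg (fun t _ => by simp only [hb]; positivity)))
  have hsa : ∑ t ∈ T, a t ≤ 1 + Real.log (2 * N) := by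
    have h1 : ∑ t ∈ T, a t ≤ ∑ k ∈ Finset.range (2 * N), ((k : ℝ) + 1)⁻¹ := by
      rw [hT, Finset.sum_sigma]
      refine Finset.sum_le_sum (fun k _ => ?_)
      calc ∑ p ∈ HasAntidiagonal.antidiagonal k, a ⟨k, p⟩
          ≤ ∑ p ∈ HasAntidiagonal.antidiagonal k, (1 / ((k : ℝ) + 1) ^ 2) := by
            refine Finset.sum_le_sum (fun p hp => ?_)
            have := HasAntidiagonal.mem_antidiagonal.1 hp
            have h3 : (p.1 : ℝ) + p.2 = k := by exact_mod_cast this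
            simp only [ha]
            rw [div_pow, div_pow, ← add_div, mul_pow, div_le_div_iff₀ (by positivity) (by positivity)]
            rw [one_mul, mul_comm]
            apply mul_le_mul_of_nonneg_left _ (by positivity)
            rw [← h3]
            have : (0 : ℝ) ≤ p.1 := by positivity
            have : (0 : ℝ) ≤ p.2 := by positivity
            nlinarith [mul_nonneg (show (0:ℝ) ≤ (p.1 : ℝ) + 1 by positivity)
              (show (0:ℝ) ≤ (p.2 : ℝ) + 1 by positivity)]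
        _ = ((k : ℝ) + 1)⁻¹ := by
            rw [Finset.sum_const, Finset.Nat.card_antidiagonal, nsmul_eq_mul]
            push_cast
            field_simp
    refine h1.trans ?_
    have := harmonic_le_one_add_log (2 * N)
    rw [harmonic] at this
    push_cast at this
    exact this
  have hsb : ∑ t ∈ T, b t ≤ D f f := by
    have hsD := D_summable (f := f) (supp_of_inn hf)
    set φ : (Σ _ : ℕ, ℕ × ℕ) → V := fun t => (v.1 + t.2.1, v.2 + t.2.2) with hφ
    have hinj : Set.InjOn φ T := by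
      rintro ⟨k, p⟩ hk ⟨l, q⟩ hl h
      simp only [hφ, Prod.mk.injEq, add_right_inj, Nat.cast_inj] at h
      have hpq : p = q := Prod.ext h.1 h.2
      rw [hT, Finset.mem_coe, Finset.mem_sigma] at hk hl
      have h1 := HasAntidiagonal.mem_antidiagonal.1 hk.2
      have h2 := HasAntidiagonal.mem_antidiagonal.1 hl.2
      simp only at h1 h2
      subst hpq
      have : k = l := by rw [← h1, ← h2]
      subst this
      rfl
    calc ∑ t ∈ T, b t = ∑ w ∈ T.image φ, ((f (w.1 + 1, w.2) - f w) * (f (w.1 + 1, w.2) - f w)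
          + (f (w.1, w.2 + 1) - f w) * (f (w.1, w.2 + 1) - f w)) := by
          rw [Finset.sum_image hinj]
          refine Finset.sum_congr rfl (fun t _ => ?_)
          simp only [hb, hg, hφ]
          push_cast
          rw [← add_assoc, ← add_assoc]
          ring
      _ ≤ D f f := hsD.sum_le_tsum _ (fun v _ => add_nonneg (mul_self_nonneg _) (mul_self_nonneg _))
  calc f v ^ 2 = (∑ t ∈ T, s t) ^ 2 := by rw [hsum]; ring
    _ ≤ (∑ t ∈ T, a t) * (∑ t ∈ T, b t) := hcs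
    _ ≤ (1 + Real.log (2 * N)) * D f f := by
      apply mul_le_mul hsa hsb
      · exact Finset.sum_nonneg (fun t _ => by simp only [hb]; positivity)
      · exact (Finset.sum_nonneg (fun t _ => by simp only [ha]; positivity)).trans hsa

end Pool.H92.GFF
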