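import Pool.Agent.helper92.GFF.Pot

/-!
Breadth first exploration of the open cluster, and the deterministic part of the argument.
-/

namespace Pool.H92.GFF

open Function Finset
open scoped Classical

/-- state of the exploration: (revealed vertices, frontier) -/
noncomputable def st (U S : Finset V) (o : V → Prop) : ℕ → Finset V × Finset V
  | 0 => (S, S.filter o)
  | (r + 1) =>
    ((st U S o r).1 ∪ ((st U S o r).2.biUnion nb ∩ U),
      (((st U S o r).1 ∪ ((st U S o r).2.biUnion nb ∩ U)) \ (st U S o r).1).filter o)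

noncomputable def Bs (U S : Finset V) (o : V → Prop) (r : ℕ) : Finset V := (st U S o r).1
noncomputable def Fs (U S : Finset V) (o : V → Prop) (r : ℕ) : Finset V := (st U S o r).2

variable {U S : Finset V} {o : V → Prop}

lemma Bs_zero : Bs U S o 0 = S := rfl
lemma Fs_zero : Fs U S o 0 = S.filter o := rfl
lemma Bs_succ (r : ℕ) : Bs U S o (r + 1) = Bs U S o r ∪ ((Fs U S o r).biUnion nb ∩ U) := rfl
lemma Fs_succ (r : ℕ) : Fs U S o (r + 1) = (Bs U S o (r + 1) \ Bs U S o r).filter o := rfl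

lemma Bs_mono_succ (r : ℕ) : Bs U S o r ⊆ Bs U S o (r + 1) := by
  rw [Bs_succ]; exact Finset.subset_union_left

lemma Bs_mono {r s : ℕ} (h : r ≤ s) : Bs U S o r ⊆ Bs U S o s := by
  induction h with
  | refl => exact Finset.Subset.refl _
  | step _ ih => exact ih.trans (Bs_mono_succ _)

lemma Bs_subset (hS : S ⊆ U) (r : ℕ) : Bs U S o r ⊆ U := by
  induction r with
  | zero => exact hS
  | succ r ih =>
    rw [Bs_succ]
    exact Finset.union_subset ih Finset.inter_subset_right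

lemma Fs_subset (r : ℕ) : Fs U S o r ⊆ Bs U S o r := by
  cases r with
  | zero => exact Finset.filter_subset _ _
  | succ r =>
    rw [Fs_succ]
    exact (Finset.filter_subset _ _).trans Finset.sdiff_subset

lemma Fs_open {r : ℕ} {v : V} (hv : v ∈ Fs U S o r) : o v := by
  cases r with
  | zero => exact (Finset.mem_filter.1 hv).2
  | succ r => rw [Fs_succ] at hv; exact (Finset.mem_filter.1 hv).2

/-- an open revealed vertex is on the frontier at some time `≤ r` -/
lemma mem_Fs_of_open {r : ℕ} {v : V} (hv : v ∈ Bs U S o r) (ho : o v) :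
    ∃ s ≤ r, v ∈ Fs U S o s := by
  induction r with
  | zero => exact ⟨0, le_refl _, by rw [Fs_zero]; exact Finset.mem_filter.2 ⟨hv, ho⟩⟩
  | succ r ih =>
    by_cases h : v ∈ Bs U S o r
    · obtain ⟨s, hs, hs'⟩ := ih h
      exact ⟨s, by omega, hs'⟩
    · refine ⟨r + 1, le_refl _, ?_⟩
      rw [Fs_succ]
      exact Finset.mem_filter.2 ⟨Finset.mem_sdiff.2 ⟨hv, h⟩, ho⟩

lemma nb_subset_of_not_frontier {T : Finset V} (hT : ∀ v ∈ U, v ∉ T → nb v ⊆ U) (hS : S ⊆ U)
    {r : ℕ} (hno : ∀ s ≤ r, Disjoint (Fs U S o s) T) {v : V} (hv : v ∈ Bs U S o r) (ho : o v)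
    (hf : v ∉ Fs U S o r) : nb v ⊆ Bs U S o r := by
  obtain ⟨s, hs, hvs⟩ := mem_Fs_of_open hv ho
  have hsr : s < r := lt_of_le_of_ne hs (fun h => hf (h ▸ hvs))
  have hvT : v ∉ T := Finset.disjoint_left.1 (hno s hs) hvs
  have hvU : v ∈ U := Bs_subset hS s (Fs_subset s hvs)
  have h1 : nb v ⊆ Bs U S o (s + 1) := by
    rw [Bs_succ]
    intro w hw
    refine Finset.mem_union_right _ (Finset.mem_inter.2 ⟨?_, hT v hvU hvT hw⟩)
    exact Finset.mem_biUnion.2 ⟨v, hvs, hw⟩
  exact h1.trans (Bs_mono hsr)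

/-- locality: the exploration up to time `r` only depends on the states of revealed vertices -/
lemma st_congr {o o' : V → Prop} {r : ℕ} (h : ∀ v ∈ Bs U S o r, (o v ↔ o' v)) :
    ∀ s ≤ r, st U S o' s = st U S o s := by
  intro s hs
  induction s with
  | zero =>
    show (S, S.filter o') = (S, S.filter o)
    congr 1
    refine Finset.filter_congr (fun v hv => (h v (Bs_mono (Nat.zero_le r) hv)).symm)
  | succ s ih =>
    have ih := ih (by omega)
    show (_, _) = (_, _)
    rw [ih]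
    congr 1
    refine Finset.filter_congr (fun v hv => (h v ?_).symm)
    have : v ∈ Bs U S o (s + 1) := (Finset.mem_sdiff.1 hv).1
    exact Bs_mono hs this

lemma Bs_eq_iff {o o' : V → Prop} {r : ℕ} {E : Finset V} (h : ∀ v ∈ E, (o v ↔ o' v)) :
    Bs U S o r = E ↔ Bs U S o' r = E := by
  constructor
  · intro hB
    have := st_congr (r := r) (o := o) (o' := o') (fun v hv => h v (hB ▸ hv)) r (le_refl r)
    unfold Bs at hB ⊢
    rw [this, hB]
  · intro hB
    have := st_congr (r := r) (o := o') (o' := o) (fun v hv => (h v (hB ▸ hv)).symm) r (le_refl r)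
    unfold Bs at hB ⊢
    rw [this, hB]

/-- frontier weights are square summable -/
lemma sum_sq_weights {I : Finset V} (hU : U ⊆ I) (hS : S ⊆ U) (R : ℕ) :
    ∑ r ∈ Finset.range R, ∑ w ∈ Fs U S o (r + 1), qw I (Bs U S o (r + 1)) w ^ 2
      ≤ 8 * (cp I (Bs U S o R) - cp I (Bs U S o 0)) := by
  induction R with
  | zero => simp
  | succ R ih =>
    rw [Finset.sum_range_succ]
    have h1 := cp_increment (I := I) (Bs_mono_succ (U := U) (S := S) (o := o) R)
      ((Bs_subset hS (R + 1)).trans hU)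
    have h2 : ∑ w ∈ Fs U S o (R + 1), qw I (Bs U S o (R + 1)) w ^ 2
        ≤ ∑ w ∈ Bs U S o (R + 1) \ Bs U S o R, qw I (Bs U S o (R + 1)) w ^ 2 := by
      refine Finset.sum_le_sum_of_subset_of_nonneg ?_ (fun _ _ _ => sq_nonneg _)
      rw [Fs_succ]
      exact Finset.filter_subset _ _
    linarith

lemma frontier_disjoint {r s : ℕ} (h : r < s) : Disjoint (Fs U S o r) (Fs U S o s) := by
  obtain ⟨t, rfl⟩ : ∃ t, s = t + 1 := ⟨s - 1, by omega⟩
  rw [Finset.disjoint_left]
  intro v hv hv'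
  rw [Fs_succ] at hv'
  have := (Finset.mem_sdiff.1 (Finset.mem_filter.1 hv').1).2
  exact this (Bs_mono (by omega) (Fs_subset r hv))

/-- harmonic observable of the field `x` -/
noncomputable def Mo (I E : Finset V) (x : V → ℝ) : ℝ := ∑ w ∈ E, qw I E w * x w

/-- lower bound for the observable while there is no crossing -/
lemma Mo_lower {I T : Finset V} (hU : U ⊆ I) (hS : S ⊆ U)
    (hT : ∀ v ∈ U, v ∉ T → nb v ⊆ U) {lam : ℝ} (hlam : 0 ≤ lam) {x : V → ℝ} {r : ℕ}
    (hno : ∀ s ≤ r, Disjoint (Fs U S (fun v => x v ≤ lam) s) T) :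
    lam * cp I S - ∑ w ∈ Fs U S (fun v => x v ≤ lam) r,
      qw I (Bs U S (fun v => x v ≤ lam) r) w * (lam + |x w|)
      ≤ Mo I (Bs U S (fun v => x v ≤ lam) r) x := by
  set o : V → Prop := fun v => x v ≤ lam with ho
  set E := Bs U S o r with hE
  have hEU : E ⊆ I := (Bs_subset hS r).trans hU
  have h1 : cp I S ≤ cp I E := cp_mono (Bs_mono (Nat.zero_le r)) hEU
  have h2 : cp I E = ∑ w ∈ E, qw I E w := cp_eq hEU
  have hFE : Fs U S o r ⊆ E := Fs_subset r
  have h3 : ∀ w ∈ E, lam * qw I E w - (if w ∈ Fs U S o r then qw I E w * (lam + |x w|) else 0)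
      ≤ qw I E w * x w := by
    intro w hw
    have hq := qw_nonneg (I := I) hw
    by_cases hwF : w ∈ Fs U S o r
    · rw [if_pos hwF]
      nlinarith [neg_abs_le (x w)]
    · rw [if_neg hwF]
      by_cases how : o w
      · rw [qw_eq_zero hw (nb_subset_of_not_frontier hT hS hno hw how hwF)]; simp
      · have : lam < x w := not_le.1 how
        nlinarith
  have h4 : ∑ w ∈ E, (lam * qw I E w -
      (if w ∈ Fs U S o r then qw I E w * (lam + |x w|) else 0)) ≤ Mo I E x :=
    Finset.sum_le_sum h3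
  rw [Finset.sum_sub_distrib, ← Finset.mul_sum, ← h2, Finset.sum_ite_mem,
    Finset.inter_eq_right.2 hFE] at h4
  have := mul_le_mul_of_nonneg_left h1 hlam
  linarith

/-- Cauchy-Schwarz average over the radii `1..R` (restricted to `a ≤ r < R`) -/
lemma sum_frontier_le {I : Finset V} (hU : U ⊆ I) (hS : S ⊆ U) (R : ℕ) (y : V → ℝ)
    (hy : ∀ v, 0 ≤ y v) (a : ℕ) :
    ∑ r ∈ Finset.Ico a R, ∑ w ∈ Fs U S o (r + 1), qw I (Bs U S o (r + 1)) w * y w
      ≤ Real.sqrt (8 * cp I U) * Real.sqrt (∑ v ∈ U, y v ^ 2) := by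
  have hA : ∑ r ∈ Finset.Ico a R, ∑ w ∈ Fs U S o (r + 1), qw I (Bs U S o (r + 1)) w ^ 2
      ≤ 8 * cp I U := by
    calc ∑ r ∈ Finset.Ico a R, ∑ w ∈ Fs U S o (r + 1), qw I (Bs U S o (r + 1)) w ^ 2
        ≤ ∑ r ∈ Finset.range R, ∑ w ∈ Fs U S o (r + 1), qw I (Bs U S o (r + 1)) w ^ 2 := by
          refine Finset.sum_le_sum_of_subset_of_nonneg ?_
            (fun _ _ _ => Finset.sum_nonneg (fun _ _ => sq_nonneg _))
          intro r hr
          exact Finset.mem_range.2 (Finset.mem_Ico.1 hr).2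
      _ ≤ 8 * (cp I (Bs U S o R) - cp I (Bs U S o 0)) := sum_sq_weights hU hS R
      _ ≤ 8 * cp I U := by
          have := cp_mono (I := I) (Bs_subset (o := o) hS R) hU
          have := cp_nonneg I (Bs U S o 0)
          linarith
  have hB : ∑ r ∈ Finset.Ico a R, ∑ w ∈ Fs U S o (r + 1), y w ^ 2 ≤ ∑ v ∈ U, y v ^ 2 := by
    rw [← Finset.sum_biUnion]
    · refine Finset.sum_le_sum_of_subset_of_nonneg ?_ (fun _ _ _ => sq_nonneg _)
      intro v hv
      obtain ⟨r, _, hr⟩ := Finset.mem_biUnion.1 hv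
      exact Bs_subset hS (r + 1) (Fs_subset _ hr)
    · intro r _ s _ hrs
      rcases lt_or_gt_of_ne hrs with h | h
      · exact frontier_disjoint (by omega)
      · exact (frontier_disjoint (by omega)).symm
  rw [Finset.sum_sigma'] at hA hB ⊢
  calc _ ≤ Real.sqrt (∑ p ∈ (Finset.Ico a R).sigma (fun r => Fs U S o (r + 1)),
          qw I (Bs U S o (p.1 + 1)) p.2 ^ 2) *
        Real.sqrt (∑ p ∈ (Finset.Ico a R).sigma (fun r => Fs U S o (r + 1)), y p.2 ^ 2) :=
        Real.sum_mul_le_sqrt_mul_sqrt _ _ _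
    _ ≤ _ := mul_le_mul (Real.sqrt_le_sqrt hA) (Real.sqrt_le_sqrt hB) (Real.sqrt_nonneg _)
        (Real.sqrt_nonneg _)

end Pool.H92.GFF
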