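import Pool.Agent.helper92.GFF.Main

/-!
Final assembly.
-/

namespace Pool.H92.GFF

open Function Finset MeasureTheory ProbabilityTheory
open scoped Classical ENNReal NNReal

variable {N : ℕ} {Ω : Type*} [MeasurableSpace Ω] {μ : Measure Ω} {η : V → Ω → ℝ}

lemma cov_congr {X X' Y Y' : Ω → ℝ} (hX : X =ᵐ[μ] X') (hY : Y =ᵐ[μ] Y') :
    cov[X, Y; μ] = cov[X', Y'; μ] := by
  unfold covariance
  rw [integral_congr_ae hX, integral_congr_ae hY]
  apply integral_congr_ae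
  filter_upwards [hX, hY] with ω h1 h2
  rw [h1, h2]

/-- a measurable modification -/
lemma IsDGFF.modify (h : IsDGFF N μ η) : ∃ η' : V → Ω → ℝ, IsDGFF N μ η' ∧
    (∀ v, Measurable (η' v)) ∧ ∀ᵐ ω ∂μ, ∀ v ∈ box N, η v ω = η' v ω := by
  have hae : ∀ v ∈ box N, AEMeasurable (η v) μ := fun v hv => h.gaussian.aemeasurable ⟨v, hv⟩
  set η' : V → Ω → ℝ := fun v => if hv : v ∈ box N then (hae v hv).mk else 0 with hη'
  have hmk : ∀ v (hv : v ∈ box N), η' v = (hae v hv).mk := fun v hv => dif_pos hv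
  have heq : ∀ v ∈ box N, η v =ᵐ[μ] η' v := by
    intro v hv
    rw [hmk v hv]
    exact (hae v hv).ae_eq_mk
  refine ⟨η', ⟨?_, ?_, ?_, ?_⟩, ?_, ?_⟩
  · exact h.gaussian.congr (fun v => heq v v.2)
  · intro v hv
    rw [← h.centred v hv]
    exact (integral_congr_ae (heq v hv)).symm
  · intro v hv
    filter_upwards [h.boundary v hv, heq v (bd_subset_box N hv)] with ω h1 h2
    rw [← h2, h1]
  · intro u hu v hv
    rw [← h.covariance u hu v hv]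
    exact (cov_congr (heq u hu) (heq v hv)).symm
  · intro v
    by_cases hv : v ∈ box N
    · rw [hmk v hv]; exact (hae v hv).measurable_mk
    · have : η' v = 0 := dif_neg hv
      rw [this]; exact measurable_zero
  · rw [Finset.eventually_all]
    exact heq

/-- geometry of the two boxes -/
lemma geom {α β : ℝ} (h0 : 0 < α) (h1 : α < β) (h2 : β < 1) {N : ℕ} (hN : 1 ≤ α * N)
    (hN2 : 2 ≤ (1 - β) * N) :
    1 ≤ ⌊α * N⌋₊ ∧ ⌊α * N⌋₊ ≤ ⌊β * N⌋₊ ∧ ∃ d : ℕ, 1 ≤ d ∧ ⌊β * N⌋₊ + 2 * d ≤ N ∧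
      (1 - β) * N / 4 ≤ d := by
  have hNr : (0 : ℝ) ≤ N := by positivity
  have hM : 1 ≤ ⌊α * N⌋₊ := Nat.le_floor (by simpa using hN)
  have hMK : ⌊α * N⌋₊ ≤ ⌊β * N⌋₊ := Nat.floor_le_floor (mul_le_mul_of_nonneg_right h1.le hNr)
  have hb0 : 0 ≤ β * N := by
    have : 0 ≤ β := by linarith
    positivity
  have hK : (⌊β * N⌋₊ : ℝ) ≤ β * N := Nat.floor_le hb0
  have hKN : ⌊β * N⌋₊ ≤ N := by
    have : (⌊β * N⌋₊ : ℝ) ≤ N := by nlinarith
    exact_mod_cast this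
  set n : ℕ := N - ⌊β * N⌋₊ with hn
  have hnr : (n : ℝ) = N - ⌊β * N⌋₊ := by rw [hn, Nat.cast_sub hKN]
  have hn2 : (1 - β) * N ≤ n := by rw [hnr]; linarith
  have hn2' : 2 ≤ n := by
    have : (2 : ℝ) ≤ n := by linarith
    exact_mod_cast this
  refine ⟨hM, hMK, n / 2, by omega, by omega, ?_⟩
  have h3 : (n : ℝ) / 4 ≤ ((n / 2 : ℕ) : ℝ) := by
    have h4 : n ≤ 4 * (n / 2) := by omega
    have h5 : (n : ℝ) ≤ 4 * ((n / 2 : ℕ) : ℝ) := by exact_mod_cast h4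
    linarith
  linarith

lemma floor_half {x : ℝ} (hx : 1 ≤ x) : x / 2 ≤ (⌊x⌋₊ : ℝ) := by
  have h1 : (1 : ℝ) ≤ ⌊x⌋₊ := by
    have : 1 ≤ ⌊x⌋₊ := Nat.le_floor (by simpa using hx)
    exact_mod_cast this
  have h2 := Nat.lt_floor_add_one x
  by_cases h : x ≤ 2
  · linarith
  · linarith

lemma log_half {N : ℕ} (hN : 2 ≤ N) : 1 / 2 ≤ Real.log N := by
  have h1 : Real.log 2 ≤ Real.log N := Real.log_le_log (by norm_num) (by exact_mod_cast hN)
  have := Real.log_two_gt_d9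
  linarith

lemma sigma_le {N : ℕ} (hN : 2 ≤ N) : 1 + Real.log (2 * N) ≤ 4 * Real.log N := by
  have h1 : Real.log 2 ≤ Real.log N := Real.log_le_log (by norm_num) (by exact_mod_cast hN)
  have h2 := Real.log_two_gt_d9
  rw [Real.log_mul (by norm_num) (by positivity)]
  linarith

/-- the constant -/
noncomputable def CC (α β : ℝ) : ℝ := √(32768 / (α ^ 2 * (1 - β) ^ 2) + 1)

lemma CC_one {α β : ℝ} : 1 ≤ CC α β := by
  unfold CC
  rw [Real.one_le_sqrt]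
  have : 0 ≤ 32768 / (α ^ 2 * (1 - β) ^ 2) := by positivity
  linarith

/-- data of the crossing problem -/
lemma IsDGFF.large (h : IsDGFF N μ η) (hm : ∀ v, Measurable (η v)) {α β : ℝ} (h0 : 0 < α)
    (h1 : α < β) (h2 : β < 1) (hN : 1 ≤ α * N) (hN2 : 2 ≤ (1 - β) * N) {lam : ℝ}
    (hlam : 0 < lam) {R : ℕ} (hR : CC α β * (N * √(Real.log N)) ≤ R) :
    μ {ω | ¬ Reach (box ⌊β * N⌋₊) (bd ⌊α * N⌋₊) (bd ⌊β * N⌋₊) (fun v => η v ω) lam R} ≤
      ENNReal.ofReal (3 * Real.exp (-(α ^ 2 * (1 - β) ^ 2 / 1024 * lam ^ 2))) := by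
  obtain ⟨hM, hMK, d, hd, hKd, hd4⟩ := geom h0 h1 h2 hN hN2
  set M := ⌊α * N⌋₊ with hMdef
  set K := ⌊β * N⌋₊ with hKdef
  have hb : 0 < 1 - β := by linarith
  have hNpos : 0 < N := by omega
  have hNr : (0 : ℝ) < N := by exact_mod_cast hNpos
  have hN2' : 2 ≤ N := by omega
  have hU : box K ⊆ inn N := box_subset_inn (by omega)
  have hS : bd M ⊆ box K := (bd_subset_box M).trans (box_mono hMK)
  have hSne : (bd M).Nonempty := by
    refine ⟨((M : ℤ) / 2, (M : ℤ) / 2), ?_⟩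
    rw [mem_bd, mem_box]
    exact ⟨⟨⟨by simp only; omega, by simp only; omega⟩,
      ⟨by simp only; omega, by simp only; omega⟩⟩, Or.inr (Or.inl rfl)⟩
  have hT : ∀ v ∈ box K, v ∉ bd K → nb v ⊆ box K := fun v hv hv' => nb_subset_box hv hv'
  have hdr : (0 : ℝ) < d := by exact_mod_cast (show 0 < d by omega)
  have hκ : D (cut N d) (cut N d) ≤ 32 / (1 - β) ^ 2 := by
    refine (D_cut hd).trans ?_
    rw [div_le_div_iff₀ (by positivity) (by positivity)]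
    have h5 : ((1 - β) * N / 4) ^ 2 ≤ (d : ℝ) ^ 2 := pow_le_pow_left₀ (by positivity) hd4 2
    have h6 : ((1 - β) * N / 4) ^ 2 = (1 - β) ^ 2 * N ^ 2 / 16 := by ring
    rw [h6] at h5
    nlinarith
  have hκ0 : α / 2 ≤ cp (inn N) (bd M) := by
    refine le_trans ?_ (cp_lower hM (by omega))
    rw [le_div_iff₀ hNr]
    have := floor_half hN
    rw [← hMdef] at this
    linarith
  have hlog := log_half hN2'
  have hlogpos : 0 < Real.log N := by linarith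
  have hC0 : 0 ≤ CC α β := Real.sqrt_nonneg _
  have hRsq : (32768 / (α ^ 2 * (1 - β) ^ 2) + 1) * ((N : ℝ) ^ 2 * Real.log N) ≤ (R : ℝ) ^ 2 := by
    have h5 := pow_le_pow_left₀ (by positivity) hR 2
    rw [mul_pow, mul_pow, Real.sq_sqrt hlogpos.le] at h5
    have h6 : CC α β ^ 2 = 32768 / (α ^ 2 * (1 - β) ^ 2) + 1 := by
      unfold CC; rw [Real.sq_sqrt (by positivity)]
    rwa [h6] at h5
  have hRsq' : 32768 / (α ^ 2 * (1 - β) ^ 2) * ((N : ℝ) ^ 2 * Real.log N) ≤ (R : ℝ) ^ 2 := by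
    have : 0 ≤ (N : ℝ) ^ 2 * Real.log N := by positivity
    nlinarith
  have hR0 : 0 < R := by
    have h5 : 0 < 32768 / (α ^ 2 * (1 - β) ^ 2) * ((N : ℝ) ^ 2 * Real.log N) := by positivity
    by_contra hcon
    have : R = 0 := by omega
    rw [this] at hRsq'
    norm_num at hRsq'
    linarith
  have hcard : ((box K).card : ℝ) ≤ (N : ℝ) ^ 2 := by
    rw [card_box]
    push_cast
    have : (K : ℝ) ≤ N := by exact_mod_cast (show K ≤ N by omega)
    exact pow_le_pow_left₀ (by positivity) this 2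
  have hR1 : 128 * (32 / (1 - β) ^ 2) * (N : ℝ) ^ 2 ≤ (R : ℝ) ^ 2 * (α / 2) ^ 2 := by
    calc 128 * (32 / (1 - β) ^ 2) * (N : ℝ) ^ 2 =
        32768 / (α ^ 2 * (1 - β) ^ 2) * ((N : ℝ) ^ 2 * (1 / 2)) * (α / 2) ^ 2 := by
          field_simp; norm_num
      _ ≤ 32768 / (α ^ 2 * (1 - β) ^ 2) * ((N : ℝ) ^ 2 * Real.log N) * (α / 2) ^ 2 := by
          gcongr
      _ ≤ (R : ℝ) ^ 2 * (α / 2) ^ 2 := by gcongr
  have hmain := h.reach_bound hm hU hS hSne hT (F := cut N d) (fun v hv => cut_zero hv)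
    (fun v hv => cut_one hd hKd hv) hlam hκ (by positivity) hκ0 (by positivity) hcard
    (σ2 := 4 * Real.log N) (by positivity)
    (fun v hv => (h.var_eta hv).trans (sigma_le hN2')) hR0 hR1
  refine hmain.trans (ENNReal.ofReal_le_ofReal ?_)
  have e2 : lam ^ 2 * (α / 2) ^ 2 / (8 * (32 / (1 - β) ^ 2)) =
      α ^ 2 * (1 - β) ^ 2 / 1024 * lam ^ 2 := by
    field_simp; norm_num
  have e1 : α ^ 2 * (1 - β) ^ 2 / 1024 * lam ^ 2 ≤ (R : ℝ) ^ 2 * lam ^ 2 * (α / 2) ^ 2 /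
      (512 * (32 / (1 - β) ^ 2) * (4 * Real.log N) * (N : ℝ) ^ 2) := by
    have h5 : α ^ 2 * (1 - β) ^ 2 ≤ 1 := by
      have a1 : α ^ 2 ≤ 1 := by nlinarith
      have a2 : (1 - β) ^ 2 ≤ 1 := by nlinarith
      nlinarith [sq_nonneg α, sq_nonneg (1 - β)]
    calc α ^ 2 * (1 - β) ^ 2 / 1024 * lam ^ 2 ≤ 1 / 8 * lam ^ 2 := by
          apply mul_le_mul_of_nonneg_right _ (sq_nonneg _)
          linarith
      _ = 32768 / (α ^ 2 * (1 - β) ^ 2) * ((N : ℝ) ^ 2 * Real.log N) * lam ^ 2 * (α / 2) ^ 2 /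
      (512 * (32 / (1 - β) ^ 2) * (4 * Real.log N) * (N : ℝ) ^ 2) := by
          field_simp; norm_num
      _ ≤ _ := by gcongr
  rw [e2]
  have := Real.exp_le_exp.2 (neg_le_neg e1)
  linarith

end Pool.H92.GFF
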