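import Pool.Agent.helper92.GFF.Est

/-!
The Green function of the killed walk and the discrete Gaussian free field.
-/

namespace Pool.H92.GFF

open Function Finset MeasureTheory ProbabilityTheory
open scoped Classical

/-- `P_u(S_t = v, t < τ)` where `S` is simple random walk on `ℤ²` started at `u ∈ V_N` and `τ` is
the first time it is in `∂V_N`. -/
noncomputable def walk (N : ℕ) : ℕ → ℤ × ℤ → ℤ × ℤ → ℝ
  | 0, u, v => if u = v ∧ u ∈ inn N then 1 else 0
  | t + 1, u, v => if u ∈ inn N then
      (walk N t (u.1 + 1, u.2) v + walk N t (u.1 - 1, u.2) v + walk N t (u.1, u.2 + 1) v +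
        walk N t (u.1, u.2 - 1) v) / 4 else 0

/-- The Green function `G_{V_N}(u,v)`: the expected number of visits to `v` by simple random walk
started at `u` before it reaches `∂V_N`. -/
noncomputable def G (N : ℕ) (u v : ℤ × ℤ) : ℝ := ∑' t : ℕ, walk N t u v

/-- `η` is a discrete Gaussian free field on `V_N` with Dirichlet boundary condition. -/
structure IsDGFF (N : ℕ) {Ω : Type*} [MeasurableSpace Ω] (μ : Measure Ω)
    (η : ℤ × ℤ → Ω → ℝ) : Prop where
  gaussian : IsGaussianProcess (fun v : box N => η v) μ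
  centred : ∀ v ∈ box N, ∫ ω, η v ω ∂μ = 0
  boundary : ∀ v ∈ bd N, ∀ᵐ ω ∂μ, η v ω = 0
  covariance : ∀ u ∈ box N, ∀ v ∈ box N, cov[η u, η v; μ] = G N u v / 4

/-- one step of the killed walk acting on functions -/
noncomputable def Kop (N : ℕ) (g : V → ℝ) (u : V) : ℝ :=
  if u ∈ inn N then
      (g (u.1 + 1, u.2) + g (u.1 - 1, u.2) + g (u.1, u.2 + 1) + g (u.1, u.2 - 1)) / 4 else 0

lemma walk_succ (N t : ℕ) (u v : V) : walk N (t + 1) u v = Kop N (fun x => walk N t x v) u := rfl

lemma walk_nonneg (N t : ℕ) : ∀ u v : V, 0 ≤ walk N t u v := by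
  induction t with
  | zero => intro u v; unfold walk; split_ifs <;> norm_num
  | succ t ih =>
    intro u v
    rw [walk_succ]
    unfold Kop
    split_ifs
    · have := ih (u.1 + 1, u.2) v
      have := ih (u.1 - 1, u.2) v
      have := ih (u.1, u.2 + 1) v
      have := ih (u.1, u.2 - 1) v
      positivity
    · exact le_rfl

lemma walk_out {N t : ℕ} {u v : V} (hu : u ∉ inn N) : walk N t u v = 0 := by
  cases t with
  | zero => unfold walk; simp [hu]
  | succ t => rw [walk_succ]; unfold Kop; simp [hu]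

/-- action on a function supported in the interior -/
noncomputable def Tt (N t : ℕ) (f : V → ℝ) (w : V) : ℝ := ∑ u ∈ inn N, walk N t w u * f u

lemma Tt_succ (N t : ℕ) (f : V → ℝ) (w : V) : Tt N (t + 1) f w = Kop N (Tt N t f) w := by
  unfold Tt
  simp only [walk_succ]
  unfold Kop
  split_ifs
  · rw [← Finset.sum_add_distrib, ← Finset.sum_add_distrib, ← Finset.sum_add_distrib,
      Finset.sum_div]
    refine Finset.sum_congr rfl (fun u _ => ?_)
    ring
  · simp

lemma Tt_zero {N : ℕ} (f : V → ℝ) {w : V} (hw : w ∈ inn N) : Tt N 0 f w = f w := by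
  unfold Tt walk
  rw [Finset.sum_eq_single w]
  · simp [hw]
  · intro b _ hb
    rw [if_neg (fun h => hb h.1.symm)]; simp
  · intro h; exact absurd hw h

lemma Tt_out {N t : ℕ} (f : V → ℝ) {w : V} (hw : w ∉ inn N) : Tt N t f w = 0 := by
  unfold Tt
  refine Finset.sum_eq_zero (fun u _ => ?_)
  rw [walk_out hw]; ring

lemma Kop_sub (N : ℕ) (f g : V → ℝ) (w : V) :
    Kop N (fun v => f v - g v) w = Kop N f w - Kop N g w := by
  unfold Kop; split_ifs <;> ring

/-- intertwining: `T_t (K f) = T_{t+1} f` for `f` vanishing outside the interior -/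
lemma Tt_Kop {N : ℕ} (f : V → ℝ) (hf : ∀ v ∉ inn N, f v = 0) (t : ℕ) (w : V) :
    Tt N t (Kop N f) w = Tt N (t + 1) f w := by
  induction t generalizing w with
  | zero =>
    by_cases hw : w ∈ inn N
    · rw [Tt_zero _ hw, Tt_succ]
      have : Tt N 0 f = f := by
        ext v
        by_cases hv : v ∈ inn N
        · exact Tt_zero f hv
        · rw [Tt_out f hv, hf v hv]
      rw [this]
    · rw [Tt_out _ hw, Tt_out _ hw]
  | succ t ih =>
    rw [Tt_succ, Tt_succ N (t + 1)]
    congr 1
    ext v; exact ih v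

/-- expected number of steps: bounded partial sums -/
lemma sum_Tt_le (N : ℕ) (n : ℕ) : ∀ w ∈ box N,
    ∑ t ∈ Finset.range n, Tt N t (fun _ => 1) w ≤
      2 * (N : ℝ) ^ 2 - (w.1 : ℝ) ^ 2 - (w.2 : ℝ) ^ 2 := by
  have hh : ∀ w ∈ box N, (0 : ℝ) ≤ 2 * (N : ℝ) ^ 2 - (w.1 : ℝ) ^ 2 - (w.2 : ℝ) ^ 2 := by
    intro w hw
    rw [mem_box] at hw
    have h1 : |(w.1 : ℝ)| ≤ N := by
      have : |w.1| ≤ N := by rw [abs_le]; omega
      exact_mod_cast this
    have h2 : |(w.2 : ℝ)| ≤ N := by
      have : |w.2| ≤ N := by rw [abs_le]; omega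
      exact_mod_cast this
    have h3 := pow_le_pow_left₀ (abs_nonneg _) h1 2
    have h4 := pow_le_pow_left₀ (abs_nonneg _) h2 2
    rw [sq_abs] at h3 h4
    linarith
  induction n with
  | zero => intro w hw; simpa using hh w hw
  | succ n ih =>
    intro w hw
    rw [Finset.sum_range_succ']
    by_cases hwi : w ∈ inn N
    · rw [Tt_zero _ hwi]
      have hnb := nb_subset_box hw (fun h => (Finset.mem_sdiff.1 hwi).2 h)
      have e : ∑ t ∈ Finset.range n, Tt N (t + 1) (fun _ => 1) w =
          (∑ t ∈ Finset.range n, Tt N t (fun _ => 1) (w.1 + 1, w.2) +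
          ∑ t ∈ Finset.range n, Tt N t (fun _ => 1) (w.1 - 1, w.2) +
          ∑ t ∈ Finset.range n, Tt N t (fun _ => 1) (w.1, w.2 + 1) +
          ∑ t ∈ Finset.range n, Tt N t (fun _ => 1) (w.1, w.2 - 1)) / 4 := by
        rw [← Finset.sum_add_distrib, ← Finset.sum_add_distrib, ← Finset.sum_add_distrib,
          Finset.sum_div]
        refine Finset.sum_congr rfl (fun t _ => ?_)
        rw [Tt_succ]
        unfold Kop
        rw [if_pos hwi]
      rw [e]
      have a1 := ih (w.1 + 1, w.2) (hnb (by simp [nb]))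
      have a2 := ih (w.1 - 1, w.2) (hnb (by simp [nb]))
      have a3 := ih (w.1, w.2 + 1) (hnb (by simp [nb]))
      have a4 := ih (w.1, w.2 - 1) (hnb (by simp [nb]))
      simp only at a1 a2 a3 a4
      push_cast at a1 a2 a3 a4
      linarith
    · rw [Tt_out _ hwi]
      have : ∑ t ∈ Finset.range n, Tt N (t + 1) (fun _ => 1) w = 0 :=
        Finset.sum_eq_zero (fun t _ => Tt_out _ hwi)
      rw [this]
      simpa using hh w hw

lemma summable_walk {N : ℕ} {w u : V} : Summable (fun t => walk N t w u) := by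
  by_cases hw : w ∈ inn N
  · by_cases hu : u ∈ inn N
    · refine summable_of_sum_range_le (c := 2 * (N : ℝ) ^ 2 - (w.1 : ℝ) ^ 2 - (w.2 : ℝ) ^ 2)
        (fun t => walk_nonneg N t w u) (fun n => ?_)
      refine le_trans (Finset.sum_le_sum (fun t _ => ?_)) (sum_Tt_le N n w (inn_subset_box N hw))
      unfold Tt
      have := Finset.single_le_sum (f := fun u => walk N t w u * 1)
        (fun v _ => by simpa using walk_nonneg N t w v) hu
      simpa using this
    · have : ∀ t (w : V), walk N t w u = 0 := by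
        intro t
        induction t with
        | zero =>
          intro w; unfold walk
          rw [if_neg]
          rintro ⟨rfl, h⟩; exact hu h
        | succ t ih =>
          intro w; rw [walk_succ]; unfold Kop; simp [ih]
      simp only [this]
      exact summable_zero
  · have : ∀ t, walk N t w u = 0 := fun t => walk_out hw
    simp only [this]
    exact summable_zero

/-- the Green function inverts the Laplacian -/
lemma green_lap {N : ℕ} (f : V → ℝ) (hf : ∀ v ∉ inn N, f v = 0) {w : V} (hw : w ∈ inn N) :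
    ∑ u ∈ inn N, G N w u / 4 * lap f u = f w := by
  have h1 : ∀ u ∈ inn N, lap f u / 4 = f u - Kop N f u := by
    intro u hu
    unfold lap Kop
    rw [if_pos hu]; ring
  have h2 : HasSum (fun t => ∑ u ∈ inn N, walk N t w u * (f u - Kop N f u))
      (∑ u ∈ inn N, G N w u * (f u - Kop N f u)) := by
    refine hasSum_sum (fun u _ => ?_)
    exact (summable_walk (N := N) (w := w) (u := u)).hasSum.mul_right _
  have h3 : ∀ n, ∑ t ∈ Finset.range n, ∑ u ∈ inn N, walk N t w u * (f u - Kop N f u) =
      f w - Tt N n f w := by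
    intro n
    have e : ∀ t, ∑ u ∈ inn N, walk N t w u * (f u - Kop N f u) = Tt N t f w - Tt N (t + 1) f w := by
      intro t
      rw [← Tt_Kop f hf t w]
      unfold Tt
      rw [← Finset.sum_sub_distrib]
      refine Finset.sum_congr rfl (fun u _ => ?_)
      ring
    simp only [e]
    rw [Finset.sum_range_sub', Tt_zero f hw]
  have h4 : Filter.Tendsto (fun n => Tt N n f w) Filter.atTop (nhds 0) := by
    unfold Tt
    rw [show (0 : ℝ) = ∑ u ∈ inn N, 0 * f u by simp]
    refine tendsto_finset_sum _ (fun u _ => ?_)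
    exact (summable_walk (N := N) (w := w) (u := u)).tendsto_atTop_zero.mul_const _
  have h5 := h2.tendsto_sum_nat
  simp only [h3] at h5
  have h6 := (tendsto_const_nhds (x := f w)).sub h4
  rw [sub_zero] at h6
  have h7 := tendsto_nhds_unique h5 h6
  rw [← h7]
  refine Finset.sum_congr rfl (fun u hu => ?_)
  rw [← h1 u hu]; ring

end Pool.H92.GFF
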