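import Pool.Agent.helper92.GFF.Tail

/-!
The bound on the chemical distance.
-/

namespace Pool.H92.GFF

open Function Finset MeasureTheory ProbabilityTheory
open scoped Classical ENNReal NNReal

variable {N : ℕ} {Ω : Type*} [MeasurableSpace Ω] {μ : Measure Ω} {η : V → Ω → ℝ}

lemma meas_Mo_Bs (hm : ∀ v, Measurable (η v)) {U S : Finset V} (hS : S ⊆ U) (I : Finset V)
    (lam : ℝ) (r : ℕ) :
    Measurable (fun ω => Mo I (Bs U S (fun v => η v ω ≤ lam) r) (fun v => η v ω)) := by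
  have e1 : (fun ω => Mo I (Bs U S (fun v => η v ω ≤ lam) r) (fun v => η v ω)) =
      fun ω => ∑ E ∈ U.powerset, {ω | Bs U S (fun v => η v ω ≤ lam) r = E}.indicator
        (fun ω => Mo I E (fun v => η v ω)) ω := by
    funext ω
    rw [Finset.sum_eq_single (Bs U S (fun v => η v ω ≤ lam) r)]
    · rw [Set.indicator_of_mem]; rfl
    · intro E _ hE
      rw [Set.indicator_of_notMem]
      intro hh; exact hE hh.symm
    · intro hh
      exact absurd (Finset.mem_powerset.2 (Bs_subset hS r)) hh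
  rw [e1]
  refine Finset.measurable_sum _ (fun E _ => Measurable.indicator ?_
    (meas_Bs hS η lam (fun v _ => hm v) r E))
  unfold Mo
  exact Finset.measurable_sum _ (fun u _ => (hm u).const_mul _)

/-- deterministic inclusion -/
lemma det_incl {I U S T : Finset V} (hU : U ⊆ I) (hS : S ⊆ U)
    (hT : ∀ v ∈ U, v ∉ T → nb v ⊆ U) {lam κ κ0 n : ℝ} (hlam : 0 ≤ lam) (hκ : cp I U ≤ κ)
    (hκpos : 0 < κ) (hκ0 : κ0 ≤ cp I S) (hκ0' : 0 ≤ κ0) (hn : (U.card : ℝ) ≤ n) {R : ℕ}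
    (hR : 128 * κ * n ≤ (R : ℝ) ^ 2 * κ0 ^ 2) {x : V → ℝ} (hno : ¬ Reach U S T x lam R)
    (hsq : ∑ v ∈ U, x v ^ 2 < (R : ℝ) ^ 2 * lam ^ 2 * κ0 ^ 2 / (128 * κ)) :
    (R : ℝ) * lam * κ0 / 2 ≤ ∑ r ∈ Finset.range R,
      Mo I (Bs U S (fun v => x v ≤ lam) (r + 1)) x := by
  have h1 : ∀ r ∈ Finset.range R, lam * κ0 - ∑ w ∈ Fs U S (fun v => x v ≤ lam) (r + 1),
      qw I (Bs U S (fun v => x v ≤ lam) (r + 1)) w * (lam + |x w|)
      ≤ Mo I (Bs U S (fun v => x v ≤ lam) (r + 1)) x := by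
    intro r hr
    have hd := disjoint_of_not_reach hno
    have := Mo_lower (I := I) hU hS hT hlam (x := x) (r := r + 1)
      (fun s hs => hd s (by have := Finset.mem_range.1 hr; omega))
    have h2 := mul_le_mul_of_nonneg_left hκ0 hlam
    linarith
  have h2 := Finset.sum_le_sum h1
  rw [Finset.sum_sub_distrib, Finset.sum_const, Finset.card_range, nsmul_eq_mul] at h2
  have h3 := sum_frontier_le (o := fun v => x v ≤ lam) hU hS R (fun v => lam + |x v|)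
    (fun v => add_nonneg hlam (abs_nonneg _)) 0
  rw [Nat.Ico_zero_eq_range] at h3
  have hn0 : 0 ≤ n := le_trans (by positivity) hn
  have h4 : ∑ v ∈ U, (lam + |x v|) ^ 2 ≤ 2 * lam ^ 2 * n + 2 * ∑ v ∈ U, x v ^ 2 := by
    calc ∑ v ∈ U, (lam + |x v|) ^ 2 ≤ ∑ v ∈ U, (2 * lam ^ 2 + 2 * x v ^ 2) := by
          refine Finset.sum_le_sum (fun v _ => ?_)
          nlinarith [sq_nonneg (lam - |x v|), sq_abs (x v)]
      _ = 2 * lam ^ 2 * U.card + 2 * ∑ v ∈ U, x v ^ 2 := by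
          rw [Finset.sum_add_distrib, Finset.sum_const, nsmul_eq_mul, Finset.mul_sum]; ring
      _ ≤ _ := by
          have : 2 * lam ^ 2 * (U.card : ℝ) ≤ 2 * lam ^ 2 * n := by
            apply mul_le_mul_of_nonneg_left hn (by positivity)
          linarith
  have h5 : √(8 * cp I U) * √(∑ v ∈ U, (lam + |x v|) ^ 2) ≤ (R : ℝ) * lam * κ0 / 2 := by
    rw [← Real.sqrt_mul (by have := cp_nonneg I U; positivity)]
    rw [show (R : ℝ) * lam * κ0 / 2 = √(((R : ℝ) * lam * κ0 / 2) ^ 2) by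
      rw [Real.sqrt_sq (by positivity)]]
    apply Real.sqrt_le_sqrt
    have h6 : ∑ v ∈ U, (lam + |x v|) ^ 2 ≤
        2 * lam ^ 2 * n + 2 * ((R : ℝ) ^ 2 * lam ^ 2 * κ0 ^ 2 / (128 * κ)) := by linarith
    calc 8 * cp I U * ∑ v ∈ U, (lam + |x v|) ^ 2
        ≤ 8 * κ * (2 * lam ^ 2 * n + 2 * ((R : ℝ) ^ 2 * lam ^ 2 * κ0 ^ 2 / (128 * κ))) := by
          apply mul_le_mul (by linarith) h6 (Finset.sum_nonneg (fun _ _ => sq_nonneg _))
            (by positivity)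
      _ = lam ^ 2 / 8 * (128 * κ * n) + (R : ℝ) ^ 2 * lam ^ 2 * κ0 ^ 2 / 8 := by
          field_simp; ring
      _ ≤ lam ^ 2 / 8 * ((R : ℝ) ^ 2 * κ0 ^ 2) + (R : ℝ) ^ 2 * lam ^ 2 * κ0 ^ 2 / 8 := by
          have := mul_le_mul_of_nonneg_left hR (show (0 : ℝ) ≤ lam ^ 2 / 8 by positivity)
          linarith
      _ = ((R : ℝ) * lam * κ0 / 2) ^ 2 := by ring
  linarith

/-- probability of not reaching -/
lemma IsDGFF.reach_bound (h : IsDGFF N μ η) (hm : ∀ v, Measurable (η v)) {U S T : Finset V}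
    (hU : U ⊆ inn N) (hS : S ⊆ U) (hSne : S.Nonempty) (hT : ∀ v ∈ U, v ∉ T → nb v ⊆ U)
    {F : V → ℝ} (hF0 : ∀ v ∉ inn N, F v = 0) (hF1 : ∀ v ∈ U, F v = 1)
    {lam κ κ0 n σ2 : ℝ} (hlam : 0 < lam) (hκ : D F F ≤ κ) (hκpos : 0 < κ)
    (hκ0 : κ0 ≤ cp (inn N) S) (hκ0' : 0 < κ0) (hn : (U.card : ℝ) ≤ n) (hσ : 0 < σ2)
    (hσ' : ∀ v ∈ inn N, Var[η v; μ] ≤ σ2) {R : ℕ} (hR0 : 0 < R)
    (hR : 128 * κ * n ≤ (R : ℝ) ^ 2 * κ0 ^ 2) :
    μ {ω | ¬ Reach U S T (fun v => η v ω) lam R} ≤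
      ENNReal.ofReal (2 * Real.exp (-((R : ℝ) ^ 2 * lam ^ 2 * κ0 ^ 2 / (512 * κ * σ2 * n))) +
        Real.exp (-(lam ^ 2 * κ0 ^ 2 / (8 * κ)))) := by
  have := h.isProb
  have hUne : U.Nonempty := hSne.mono hS
  have hUc : (0 : ℝ) < U.card := by exact_mod_cast hUne.card_pos
  have hn0 : 0 < n := lt_of_lt_of_le hUc hn
  have hRr : (0 : ℝ) < R := by exact_mod_cast hR0
  set a : ℝ := (R : ℝ) ^ 2 * lam ^ 2 * κ0 ^ 2 / (128 * κ) with ha
  have ha0 : 0 ≤ a := by rw [ha]; positivity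
  have hcpU : cp (inn N) U ≤ κ := (cp_le hU hF0 hF1).trans hκ
  have hincl : {ω | ¬ Reach U S T (fun v => η v ω) lam R} ⊆
      {ω | a / (4 * σ2) ≤ ∑ v ∈ U, (1 / (4 * σ2)) * η v ω ^ 2} ∪
      {ω | lam * κ0 / (2 * κ) * ((R : ℝ) * lam * κ0 / 2) ≤ ∑ r ∈ Finset.range R,
        lam * κ0 / (2 * κ) *
          Mo (inn N) (Bs U S (fun v => η v ω ≤ lam) (r + 1)) (fun v => η v ω)} := by
    intro ω hω
    by_cases hsq : ∑ v ∈ U, η v ω ^ 2 < a
    · right
      have := det_incl hU hS hT hlam.le hcpU hκpos hκ0 hκ0'.le hn hR hω hsq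
      show lam * κ0 / (2 * κ) * ((R : ℝ) * lam * κ0 / 2) ≤ ∑ r ∈ Finset.range R,
        lam * κ0 / (2 * κ) *
          Mo (inn N) (Bs U S (fun v => η v ω ≤ lam) (r + 1)) (fun v => η v ω)
      rw [← Finset.mul_sum]
      exact mul_le_mul_of_nonneg_left this (by positivity)
    · left
      push Not at hsq
      show a / (4 * σ2) ≤ ∑ v ∈ U, (1 / (4 * σ2)) * η v ω ^ 2
      rw [← Finset.mul_sum, div_eq_inv_mul, one_div]
      exact mul_le_mul_of_nonneg_left hsq (by positivity)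
  refine (measure_mono hincl).trans ((measure_union_le _ _).trans ?_)
  rw [ENNReal.ofReal_add (by positivity) (by positivity)]
  refine add_le_add ?_ ?_
  · have h1 := markov_avg (μ := μ) U hUne (fun v ω => (1 / (4 * σ2)) * η v ω ^ 2)
      (fun v _ => ((hm v).pow_const 2).const_mul _) (ENNReal.ofReal 2) (fun v hv => ?_)
      (a / (4 * σ2))
    · refine h1.trans ?_
      rw [← ENNReal.ofReal_mul (Real.exp_pos _).le]
      apply ENNReal.ofReal_le_ofReal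
      rw [mul_comm]
      apply mul_le_mul_of_nonneg_left _ (by norm_num)
      apply Real.exp_le_exp.2
      apply neg_le_neg
      have : (R : ℝ) ^ 2 * lam ^ 2 * κ0 ^ 2 / (512 * κ * σ2 * n) = a / (4 * σ2) / n := by
        rw [ha]; field_simp; norm_num
      rw [this]
      apply div_le_div_of_nonneg_left (by positivity) hUc hn
    · apply exp_sq_moment (h.gaussian.hasGaussianLaw_eval ⟨v, inn_subset_box N (hU hv)⟩)
        (h.centred v (inn_subset_box N (hU hv))) (by positivity)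
      have := hσ' v (hU hv)
      have e : 4 * (1 / (4 * σ2)) * Var[η v; μ] = Var[η v; μ] / σ2 := by field_simp
      show 4 * (1 / (4 * σ2)) * Var[η v; μ] ≤ 1
      rw [e, div_le_one hσ]
      exact this
  · have hRne : (Finset.range R).Nonempty := ⟨0, Finset.mem_range.2 hR0⟩
    have h1 := markov_avg (μ := μ) (Finset.range R) hRne
      (fun r ω => lam * κ0 / (2 * κ) *
          Mo (inn N) (Bs U S (fun v => η v ω ≤ lam) (r + 1)) (fun v => η v ω))
      (fun r _ => (meas_Mo_Bs hm hS (inn N) lam (r + 1)).const_mul _)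
      (ENNReal.ofReal (Real.exp ((lam * κ0 / (2 * κ)) ^ 2 * D F F / 2)))
      (fun r _ => h.stopping hm hU hS hF0 hF1 _ lam (r + 1))
      (lam * κ0 / (2 * κ) * ((R : ℝ) * lam * κ0 / 2))
    refine h1.trans ?_
    rw [← ENNReal.ofReal_mul (Real.exp_pos _).le, ← Real.exp_add]
    apply ENNReal.ofReal_le_ofReal
    apply Real.exp_le_exp.2
    rw [Finset.card_range]
    have e1 : lam * κ0 / (2 * κ) * ((R : ℝ) * lam * κ0 / 2) / (R : ℝ) =
        lam ^ 2 * κ0 ^ 2 / (4 * κ) := by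
      field_simp; norm_num
    have e2 : (lam * κ0 / (2 * κ)) ^ 2 * D F F / 2 ≤ lam ^ 2 * κ0 ^ 2 / (8 * κ) := by
      have : (lam * κ0 / (2 * κ)) ^ 2 * D F F / 2 ≤ (lam * κ0 / (2 * κ)) ^ 2 * κ / 2 := by
        have := mul_le_mul_of_nonneg_left hκ (sq_nonneg (lam * κ0 / (2 * κ)))
        linarith
      refine this.trans (le_of_eq ?_)
      field_simp; norm_num
    rw [e1]
    have e3 : lam ^ 2 * κ0 ^ 2 / (4 * κ) = 2 * (lam ^ 2 * κ0 ^ 2 / (8 * κ)) := by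
      field_simp; norm_num
    rw [e3]
    linarith

end Pool.H92.GFF
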