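import Mathlib

/-!
Discrete potential theory on `ℤ × ℤ`: Laplacian, Dirichlet form, maximum principle,
equilibrium potentials, capacities.
-/

namespace Pool.H92.GFF

open Function Finset

/-- vertices -/
abbrev V := ℤ × ℤ

/-- the four nearest neighbours -/
def nb (v : V) : Finset V := {(v.1 + 1, v.2), (v.1 - 1, v.2), (v.1, v.2 + 1), (v.1, v.2 - 1)}

/-- graph Laplacian `4 f(v) - Σ f(w)` -/
def lap (f : V → ℝ) (v : V) : ℝ :=
  4 * f v - (f (v.1 + 1, v.2) + f (v.1 - 1, v.2) + f (v.1, v.2 + 1) + f (v.1, v.2 - 1))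

/-- Dirichlet form -/
noncomputable def D (f g : V → ℝ) : ℝ :=
  ∑' v : V, ((f (v.1 + 1, v.2) - f v) * (g (v.1 + 1, v.2) - g v)
    + (f (v.1, v.2 + 1) - f v) * (g (v.1, v.2 + 1) - g v))

/-- translation by `a` -/
def tr (a : V) : V ≃ V := Equiv.addRight a

lemma fin_shift {g : V → ℝ} (hg : (support g).Finite) (a : V) :
    (support (fun v : V => g (v + a))).Finite := by
  have : support (fun v : V => g (v + a)) = (fun v => v + a) ⁻¹' support g := rfl
  rw [this]
  exact hg.preimage (fun x _ y _ h => by simpa using h)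

lemma fin_mul_right {f g : V → ℝ} (hg : (support g).Finite) :
    (support (fun v : V => f v * g v)).Finite :=
  hg.subset (fun v hv => by
    simp only [mem_support, ne_eq, mul_eq_zero, not_or] at hv ⊢
    exact hv.2)

lemma summable_mul_right {f g : V → ℝ} (hg : (support g).Finite) :
    Summable (fun v : V => f v * g v) :=
  summable_of_hasFiniteSupport (fin_mul_right hg)

lemma tsum_shift (h : V → ℝ) (a : V) : ∑' v : V, h (v + a) = ∑' v : V, h v :=
  (Equiv.addRight a).tsum_eq h

lemma fin_sub {f g : V → ℝ} (hf : (support f).Finite) (hg : (support g).Finite) :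
    (support (fun v : V => f v - g v)).Finite := by
  refine (hf.union hg).subset (fun v hv => ?_)
  by_contra hcon
  simp only [Set.mem_union, mem_support, ne_eq, not_or, not_not] at hcon
  simp [hcon.1, hcon.2] at hv

lemma fin_add {f g : V → ℝ} (hf : (support f).Finite) (hg : (support g).Finite) :
    (support (fun v : V => f v + g v)).Finite := by
  refine (hf.union hg).subset (fun v hv => ?_)
  by_contra hcon
  simp only [Set.mem_union, mem_support, ne_eq, not_or, not_not] at hcon
  simp [hcon.1, hcon.2] at hv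

lemma e1_eq (v : V) : (v.1 + 1, v.2) = v + (1, 0) := by ext <;> simp
lemma e2_eq (v : V) : (v.1, v.2 + 1) = v + (0, 1) := by ext <;> simp
lemma e1_eq' (v : V) : (v.1 - 1, v.2) = v + (-1, 0) := by ext <;> simp; ring
lemma e2_eq' (v : V) : (v.1, v.2 - 1) = v + (0, -1) := by ext <;> simp; ring

/-- Green's identity -/
lemma tsum_lap_mul {f g : V → ℝ} (hg : (support g).Finite) :
    ∑' v : V, lap f v * g v = D f g := by
  have s0 : Summable (fun v : V => f v * g v) := summable_mul_right hg
  have key : ∀ a : V, Summable (fun v : V => (f (v + a) - f v) * (g (v + a) - g v)) ∧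
      ∑' v : V, (f (v + a) - f v) * (g (v + a) - g v)
        = ∑' v : V, (2 * f v - f (v + a) - f (v - a)) * g v := by
    intro a
    have hga := fin_shift hg a
    have s1 : Summable (fun v : V => (f (v + a) - f v) * g (v + a)) :=
      summable_mul_right (f := fun v => f (v + a) - f v) hga
    have s2 : Summable (fun v : V => (f (v + a) - f v) * g v) :=
      summable_mul_right (f := fun v => f (v + a) - f v) hg
    have e1 : ∑' v : V, (f (v + a) - f v) * g (v + a) = ∑' v : V, (f v - f (v - a)) * g v := by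
      rw [← tsum_shift (fun v => (f v - f (v - a)) * g v) a]
      simp
    have s3 : Summable (fun v : V => (f v - f (v - a)) * g v) :=
      summable_mul_right (f := fun v => f v - f (v - a)) hg
    constructor
    · have := s1.sub s2
      refine this.congr (fun v => ?_)
      ring
    · calc ∑' v : V, (f (v + a) - f v) * (g (v + a) - g v)
          = ∑' v : V, ((f (v + a) - f v) * g (v + a) - (f (v + a) - f v) * g v) := by
            congr 1; ext v; ring
        _ = ∑' v : V, (f v - f (v - a)) * g v - ∑' v : V, (f (v + a) - f v) * g v := by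
            rw [s1.tsum_sub s2, e1]
        _ = ∑' v : V, ((f v - f (v - a)) * g v - (f (v + a) - f v) * g v) := by
            rw [s3.tsum_sub s2]
        _ = _ := by congr 1; ext v; ring
  obtain ⟨sa, ea⟩ := key (1, 0)
  obtain ⟨sb, eb⟩ := key (0, 1)
  unfold D
  have : ∀ v : V, ((f (v.1 + 1, v.2) - f v) * (g (v.1 + 1, v.2) - g v)
    + (f (v.1, v.2 + 1) - f v) * (g (v.1, v.2 + 1) - g v)) =
    (f (v + (1, 0)) - f v) * (g (v + (1, 0)) - g v) +
    (f (v + (0, 1)) - f v) * (g (v + (0, 1)) - g v) := by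
    intro v; rw [e1_eq, e2_eq]
  simp_rw [this]
  rw [sa.tsum_add sb, ea, eb, ← Summable.tsum_add]
  · congr 1
    ext v
    unfold lap
    rw [e1_eq, e2_eq, e1_eq', e2_eq']
    have h1 : v - (1, 0) = v + (-1, 0) := by ext <;> simp; ring
    have h2 : v - (0, 1) = v + (0, -1) := by ext <;> simp; ring
    rw [h1, h2]
    ring
  · exact summable_mul_right hg
  · exact summable_mul_right hg

lemma D_comm (f g : V → ℝ) : D f g = D g f := by
  unfold D; congr 1; ext v; ring

lemma D_summable {f g : V → ℝ} (hg : (support g).Finite) :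
    Summable (fun v : V => ((f (v.1 + 1, v.2) - f v) * (g (v.1 + 1, v.2) - g v)
    + (f (v.1, v.2 + 1) - f v) * (g (v.1, v.2 + 1) - g v))) := by
  apply Summable.add
  · apply summable_of_hasFiniteSupport
    have h1 := fin_sub (fin_shift hg (1, 0)) hg
    refine h1.subset (fun v hv => ?_)
    simp only [mem_support, ne_eq, mul_eq_zero, not_or] at hv ⊢
    rw [← e1_eq]
    exact hv.2
  · apply summable_of_hasFiniteSupport
    have h1 := fin_sub (fin_shift hg (0, 1)) hg
    refine h1.subset (fun v hv => ?_)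
    simp only [mem_support, ne_eq, mul_eq_zero, not_or] at hv ⊢
    rw [← e2_eq]
    exact hv.2

lemma D_self_nonneg (f : V → ℝ) : 0 ≤ D f f := by
  unfold D
  exact tsum_nonneg (fun v => add_nonneg (mul_self_nonneg _) (mul_self_nonneg _))

lemma D_sub_self {f g : V → ℝ} (hf : (support f).Finite) (hg : (support g).Finite) :
    D (fun v => f v - g v) (fun v => f v - g v) = D f f - 2 * D f g + D g g := by
  have h1 := D_summable (f := f) hf
  have h2 := D_summable (f := f) hg
  have h3 := D_summable (f := g) hg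
  have : D f f - 2 * D f g + D g g = D f f - (D f g + D f g) + D g g := by ring
  rw [this]
  unfold D
  rw [← h2.tsum_add h2, ← h1.tsum_sub (h2.add h2), ← (h1.sub (h2.add h2)).tsum_add h3]
  congr 1
  ext v
  ring

lemma D_add_self {f g : V → ℝ} (hf : (support f).Finite) (hg : (support g).Finite) :
    D (fun v => f v + g v) (fun v => f v + g v) = D f f + 2 * D f g + D g g := by
  have h1 := D_summable (f := f) hf
  have h2 := D_summable (f := f) hg
  have h3 := D_summable (f := g) hg
  have : D f f + 2 * D f g + D g g = D f f + (D f g + D f g) + D g g := by ring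
  rw [this]
  unfold D
  rw [← h2.tsum_add h2, ← h1.tsum_add (h2.add h2), ← (h1.add (h2.add h2)).tsum_add h3]
  congr 1
  ext v
  ring

/-- maximum principle -/
lemma max_principle (W : Finset V) (f : V → ℝ) (h1 : ∀ v ∈ W, 0 ≤ lap f v)
    (h2 : ∀ v ∉ W, 0 ≤ f v) : ∀ v, 0 ≤ f v := by
  by_contra hcon
  push Not at hcon
  obtain ⟨v0, hv0⟩ := hcon
  have hv0W : v0 ∈ W := by
    by_contra h
    exact absurd (h2 v0 h) (not_le.2 hv0)
  obtain ⟨m, hmW, hm⟩ := W.exists_min_image f ⟨v0, hv0W⟩
  have hmneg : f m < 0 := lt_of_le_of_lt (hm v0 hv0W) hv0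
  set S := W.filter (fun v => f v = f m) with hS
  have hmS : m ∈ S := by simp [hS, hmW]
  obtain ⟨p, hpS, hp⟩ := S.exists_max_image (fun v => v.1) ⟨m, hmS⟩
  have hpW : p ∈ W := (Finset.mem_filter.1 hpS).1
  have hpm : f p = f m := (Finset.mem_filter.1 hpS).2
  have hle : ∀ w, f p ≤ f w := by
    intro w
    by_cases hw : w ∈ W
    · rw [hpm]; exact hm w hw
    · rw [hpm]; exact le_trans hmneg.le (h2 w hw)
  have hr : f p < f (p.1 + 1, p.2) := by
    refine lt_of_le_of_ne (hle _) (fun heq => ?_)
    have hmem : (p.1 + 1, p.2) ∈ W := by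
      by_contra h
      have := h2 _ h
      rw [← heq, hpm] at this
      exact absurd this (not_le.2 hmneg)
    have := hp (p.1 + 1, p.2) (Finset.mem_filter.2 ⟨hmem, by rw [← heq, hpm]⟩)
    simp at this
  have := h1 p hpW
  unfold lap at this
  have a1 := hle (p.1 - 1, p.2)
  have a2 := hle (p.1, p.2 + 1)
  have a3 := hle (p.1, p.2 - 1)
  linarith

lemma lap_add (f g : V → ℝ) (v : V) : lap (fun v => f v + g v) v = lap f v + lap g v := by
  unfold lap; ring

lemma lap_sub (f g : V → ℝ) (v : V) : lap (fun v => f v - g v) v = lap f v - lap g v := by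
  unfold lap; ring

lemma lap_smul (c : ℝ) (g : V → ℝ) (v : V) : lap (fun v => c * g v) v = c * lap g v := by
  unfold lap; ring

lemma eq_zero_of_lap (W : Finset V) (f : V → ℝ) (h1 : ∀ v ∈ W, lap f v = 0)
    (h2 : ∀ v ∉ W, f v = 0) : ∀ v, f v = 0 := by
  intro v
  have a := max_principle W f (fun v hv => (h1 v hv).ge) (fun v hv => (h2 v hv).ge) v
  have b := max_principle W (fun v => (-1) * f v) (fun v hv => by rw [lap_smul, h1 v hv]; simp)
    (fun v hv => by simp [h2 v hv]) v
  simp at b
  linarith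

/-- extension by zero -/
noncomputable def ext0 (W : Finset V) (h : W → ℝ) : V → ℝ :=
  fun v => if hv : v ∈ W then h ⟨v, hv⟩ else 0

lemma ext0_add (W : Finset V) (h k : W → ℝ) (v : V) :
    ext0 W (h + k) v = ext0 W h v + ext0 W k v := by
  unfold ext0; split_ifs <;> simp

lemma ext0_smul (W : Finset V) (c : ℝ) (h : W → ℝ) (v : V) :
    ext0 W (c • h) v = c * ext0 W h v := by
  unfold ext0; split_ifs <;> simp

noncomputable def lapW (W : Finset V) : (W → ℝ) →ₗ[ℝ] (W → ℝ) where
  toFun h := fun w => lap (ext0 W h) w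
  map_add' h k := by
    ext w
    have : ext0 W (h + k) = fun v => ext0 W h v + ext0 W k v := by
      ext v; exact ext0_add W h k v
    simp only [Pi.add_apply]
    rw [this, lap_add]
  map_smul' c h := by
    ext w
    have : ext0 W (c • h) = fun v => c * ext0 W h v := by
      ext v; exact ext0_smul W c h v
    simp only [Pi.smul_apply, smul_eq_mul, RingHom.id_apply]
    rw [this, lap_smul]

lemma lapW_injective (W : Finset V) : Function.Injective (lapW W) := by
  rw [← LinearMap.ker_eq_bot, LinearMap.ker_eq_bot']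
  intro h hh
  have h1 : ∀ v ∈ W, lap (ext0 W h) v = 0 := by
    intro v hv
    have := congrFun hh ⟨v, hv⟩
    simpa [lapW] using this
  have h2 : ∀ v ∉ W, ext0 W h v = 0 := by
    intro v hv; simp [ext0, hv]
  ext w
  have := eq_zero_of_lap W _ h1 h2 w
  simpa [ext0] using this

lemma lapW_surjective (W : Finset V) : Function.Surjective (lapW W) :=
  LinearMap.injective_iff_surjective.1 (lapW_injective W)

/-- Poisson/Dirichlet problem -/
lemma exists_dirichlet (W : Finset V) (b r : V → ℝ) :
    ∃ f : V → ℝ, (∀ v ∉ W, f v = b v) ∧ ∀ v ∈ W, lap f v = r v := by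
  set b' : V → ℝ := fun v => if v ∈ W then 0 else b v with hb'
  obtain ⟨h, hh⟩ := lapW_surjective W (fun w => r w - lap b' w)
  refine ⟨fun v => b' v + ext0 W h v, fun v hv => by simp [hb', ext0, hv], fun v hv => ?_⟩
  rw [lap_add]
  have := congrFun hh ⟨v, hv⟩
  simp only [lapW, LinearMap.coe_mk, AddHom.coe_mk] at this
  rw [this]; ring

/-- equilibrium potential of `E` in `I` -/
noncomputable def eqp (I E : Finset V) : V → ℝ :=
  Classical.choose (exists_dirichlet (I \ E) (fun v => if v ∈ E then 1 else 0) (fun _ => 0))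

lemma eqp_spec (I E : Finset V) : (∀ v ∉ I \ E, eqp I E v = if v ∈ E then 1 else 0) ∧
    ∀ v ∈ I \ E, lap (eqp I E) v = 0 :=
  Classical.choose_spec (exists_dirichlet (I \ E) (fun v => if v ∈ E then 1 else 0) (fun _ => 0))

lemma eqp_one {I E : Finset V} {v : V} (hv : v ∈ E) : eqp I E v = 1 := by
  rw [(eqp_spec I E).1 v (by simp [hv])]; simp [hv]

lemma eqp_zero {I E : Finset V} (hE : E ⊆ I) {v : V} (hv : v ∉ I) : eqp I E v = 0 := by
  rw [(eqp_spec I E).1 v (by simp [hv])]
  rw [if_neg (fun h => hv (hE h))]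

lemma lap_eqp {I E : Finset V} {v : V} (hv : v ∈ I) (hv' : v ∉ E) : lap (eqp I E) v = 0 :=
  (eqp_spec I E).2 v (by simp [hv, hv'])

lemma eqp_support {I E : Finset V} (hE : E ⊆ I) : (support (eqp I E)).Finite :=
  (I.finite_toSet).subset (fun v hv => by
    by_contra h
    exact hv (eqp_zero hE (by simpa using h)))

lemma eqp_nonneg (I E : Finset V) (v : V) : 0 ≤ eqp I E v := by
  refine max_principle (I \ E) _ (fun v hv => ((eqp_spec I E).2 v hv).ge) (fun v hv => ?_) v
  rw [(eqp_spec I E).1 v hv]; split_ifs <;> norm_num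

lemma eqp_le_one (I E : Finset V) (v : V) : eqp I E v ≤ 1 := by
  have := max_principle (I \ E) (fun v => 1 - eqp I E v) (fun v hv => ?_) (fun v hv => ?_) v
  · linarith
  · rw [lap_sub, (eqp_spec I E).2 v hv]; unfold lap; norm_num
  · rw [(eqp_spec I E).1 v hv]; split_ifs <;> norm_num

lemma eqp_mono {I E E' : Finset V} (h : E ⊆ E') (hE' : E' ⊆ I) (v : V) :
    eqp I E v ≤ eqp I E' v := by
  have := max_principle (I \ E') (fun v => eqp I E' v - eqp I E v) (fun v hv => ?_)
    (fun v hv => ?_) v
  · linarith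
  · have hv' : v ∈ I \ E := by
      simp only [Finset.mem_sdiff] at hv ⊢
      exact ⟨hv.1, fun hh => hv.2 (h hh)⟩
    rw [lap_sub, (eqp_spec I E).2 v hv', (eqp_spec I E').2 v hv]; norm_num
  · by_cases hvE : v ∈ E'
    · rw [eqp_one hvE]; linarith [eqp_le_one I E v]
    · have : v ∉ I := by
        intro hvI; exact hv (by simp [hvI, hvE])
      rw [eqp_zero hE' this, eqp_zero (h.trans hE') this]; norm_num

/-- equilibrium weights -/
noncomputable def qw (I E : Finset V) (v : V) : ℝ := lap (eqp I E) v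

lemma qw_nonneg {I E : Finset V} {v : V} (hv : v ∈ E) : 0 ≤ qw I E v := by
  unfold qw lap
  rw [eqp_one hv]
  have a := eqp_le_one I E (v.1 + 1, v.2)
  have b := eqp_le_one I E (v.1 - 1, v.2)
  have c := eqp_le_one I E (v.1, v.2 + 1)
  have d := eqp_le_one I E (v.1, v.2 - 1)
  linarith

lemma qw_eq_zero {I E : Finset V} {v : V} (hv : v ∈ E) (hn : nb v ⊆ E) : qw I E v = 0 := by
  unfold qw lap
  have hn' : ∀ w ∈ nb v, eqp I E w = 1 := fun w hw => eqp_one (hn hw)
  rw [eqp_one hv, hn' (v.1 + 1, v.2) (by simp [nb]), hn' (v.1 - 1, v.2) (by simp [nb]),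
    hn' (v.1, v.2 + 1) (by simp [nb]), hn' (v.1, v.2 - 1) (by simp [nb])]
  norm_num

lemma qw_anti {I E E' : Finset V} (h : E ⊆ E') (hE' : E' ⊆ I) {v : V} (hv : v ∈ E) :
    qw I E' v ≤ qw I E v := by
  unfold qw lap
  rw [eqp_one hv, eqp_one (h hv)]
  have a := eqp_mono h hE' (v.1 + 1, v.2)
  have b := eqp_mono h hE' (v.1 - 1, v.2)
  have c := eqp_mono h hE' (v.1, v.2 + 1)
  have d := eqp_mono h hE' (v.1, v.2 - 1)
  linarith

lemma D_eqp {I E : Finset V} (hE : E ⊆ I) {g : V → ℝ} (hg : ∀ v ∉ I, g v = 0) :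
    D (eqp I E) g = ∑ v ∈ E, qw I E v * g v := by
  have hgs : (support g).Finite := (I.finite_toSet).subset (fun v hv => by
    by_contra h
    exact hv (hg v (by simpa using h)))
  rw [← tsum_lap_mul hgs]
  rw [tsum_eq_sum (s := E)]
  · rfl
  · intro v hv
    by_cases hvI : v ∈ I
    · rw [lap_eqp hvI hv]; simp
    · rw [hg v hvI]; simp

/-- capacity -/
noncomputable def cp (I E : Finset V) : ℝ := D (eqp I E) (eqp I E)

lemma cp_eq {I E : Finset V} (hE : E ⊆ I) : cp I E = ∑ v ∈ E, qw I E v := by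
  unfold cp
  rw [D_eqp hE (fun v hv => eqp_zero hE hv)]
  refine Finset.sum_congr rfl (fun v hv => ?_)
  rw [eqp_one hv, mul_one]

lemma cp_nonneg (I E : Finset V) : 0 ≤ cp I E := D_self_nonneg _

/-- variational principle -/
lemma cp_le {I E : Finset V} (hE : E ⊆ I) {f : V → ℝ} (hf : ∀ v ∉ I, f v = 0)
    (hf1 : ∀ v ∈ E, f v = 1) : cp I E ≤ D f f := by
  have hfs : (support f).Finite := (I.finite_toSet).subset (fun v hv => by
    by_contra h
    exact hv (hf v (by simpa using h)))
  have h1 := D_sub_self hfs (eqp_support hE)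
  have h2 := D_self_nonneg (fun v => f v - eqp I E v)
  have h3 : D f (eqp I E) = cp I E := by
    rw [D_comm, D_eqp hE hf, cp_eq hE]
    refine Finset.sum_congr rfl (fun v hv => ?_)
    rw [hf1 v hv, mul_one]
  have h4 : D (eqp I E) (eqp I E) = cp I E := rfl
  rw [h1, h3, h4] at h2
  linarith

lemma cp_mono {I E E' : Finset V} (h : E ⊆ E') (hE' : E' ⊆ I) : cp I E ≤ cp I E' :=
  cp_le (h.trans hE') (fun _ hv => eqp_zero hE' hv) (fun _ hv => eqp_one (h hv))

lemma D_le_eight {g : V → ℝ} (hg : (support g).Finite) :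
    D g g ≤ 8 * ∑' v : V, g v ^ 2 := by
  have hs : Summable (fun v : V => g v ^ 2) := by
    have := summable_mul_right (f := g) hg
    exact this.congr (fun v => by ring)
  have hs1 : Summable (fun v : V => g (v + (1, 0)) ^ 2) := by
    have := summable_mul_right (f := fun v => g (v + (1, 0))) (fin_shift hg (1, 0))
    exact this.congr (fun v => by ring)
  have hs2 : Summable (fun v : V => g (v + (0, 1)) ^ 2) := by
    have := summable_mul_right (f := fun v => g (v + (0, 1))) (fin_shift hg (0, 1))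
    exact this.congr (fun v => by ring)
  have e1 : ∑' v : V, g (v + (1, 0)) ^ 2 = ∑' v : V, g v ^ 2 :=
    tsum_shift (fun v => g v ^ 2) (1, 0)
  have e2 : ∑' v : V, g (v + (0, 1)) ^ 2 = ∑' v : V, g v ^ 2 :=
    tsum_shift (fun v => g v ^ 2) (0, 1)
  have hle : D g g ≤ ∑' v : V, (2 * g (v + (1, 0)) ^ 2 + 2 * g (v + (0, 1)) ^ 2 + 4 * g v ^ 2) := by
    unfold D
    refine Summable.tsum_le_tsum (fun v => ?_) (D_summable hg)
      (((hs1.mul_left 2).add (hs2.mul_left 2)).add (hs.mul_left 4))
    rw [e1_eq, e2_eq]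
    nlinarith [sq_nonneg (g (v + (1, 0)) + g v), sq_nonneg (g (v + (0, 1)) + g v)]
  refine hle.trans ?_
  rw [((hs1.mul_left 2).add (hs2.mul_left 2)).tsum_add (hs.mul_left 4),
    (hs1.mul_left 2).tsum_add (hs2.mul_left 2), tsum_mul_left, tsum_mul_left, tsum_mul_left,
    e1, e2]
  linarith

/-- the key increment inequality -/
lemma cp_increment {I E E' : Finset V} (h : E ⊆ E') (hE' : E' ⊆ I) :
    cp I E + (1 / 8) * ∑ v ∈ E' \ E, qw I E' v ^ 2 ≤ cp I E' := by
  classical
  set g : V → ℝ := fun v => if v ∈ E' \ E then qw I E' v / 8 else 0 with hgdef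
  have hg0 : ∀ v ∉ I, g v = 0 := by
    intro v hv
    have : v ∉ E' \ E := fun hh => hv (hE' (Finset.mem_sdiff.1 hh).1)
    simp only [hgdef, if_neg this]
  have hgs : (support g).Finite := (I.finite_toSet).subset (fun v hv => by
    by_contra h
    exact hv (hg0 v (by simpa using h)))
  have h1 := D_sub_self (eqp_support hE') hgs
  have h2 : cp I E ≤ D (fun v => eqp I E' v - g v) (fun v => eqp I E' v - g v) := by
    refine cp_le (h.trans hE') (fun v hv => ?_) (fun v hv => ?_)
    · rw [eqp_zero hE' hv, hg0 v hv]; simp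
    · have : v ∉ E' \ E := by simp [hv]
      rw [eqp_one (h hv)]
      simp only [hgdef, if_neg this]; simp
  have h3 : D (eqp I E') g = (1 / 8) * ∑ v ∈ E' \ E, qw I E' v ^ 2 := by
    rw [D_eqp hE' hg0, Finset.mul_sum]
    rw [← Finset.sum_subset (Finset.sdiff_subset : E' \ E ⊆ E')]
    · refine Finset.sum_congr rfl (fun v hv => ?_)
      simp only [hgdef, if_pos hv]; ring
    · intro v _ hv
      simp only [hgdef, if_neg hv]; simp
  have h4 : D g g ≤ 8 * ((1 / 64) * ∑ v ∈ E' \ E, qw I E' v ^ 2) := by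
    refine (D_le_eight hgs).trans ?_
    rw [tsum_eq_sum (s := E' \ E)]
    · apply mul_le_mul_of_nonneg_left _ (by norm_num)
      rw [Finset.mul_sum]
      refine Finset.sum_le_sum (fun v hv => ?_)
      simp only [hgdef, if_pos hv]
      apply le_of_eq; ring
    · intro v hv
      simp only [hgdef, if_neg hv]; simp
  have h5 : D (eqp I E') (eqp I E') = cp I E' := rfl
  rw [h1, h3, h5] at h2
  linarith

end Pool.H92.GFF
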