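import Pool.Agent.helper92.GFF.Green

/-!
Gaussian computations: linear functionals of the field, exploration and independence.
-/

namespace Pool.H92.GFF

open Function Finset MeasureTheory ProbabilityTheory
open scoped Classical ENNReal

variable {N : ℕ} {Ω : Type*} [MeasurableSpace Ω] {μ : Measure Ω} {η : V → Ω → ℝ}

lemma IsDGFF.isProb (h : IsDGFF N μ η) : IsProbabilityMeasure μ := h.gaussian.isProbabilityMeasure

lemma IsDGFF.memLp (h : IsDGFF N μ η) {v : V} (hv : v ∈ box N) : MemLp (η v) 2 μ :=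
  (h.gaussian.hasGaussianLaw_eval ⟨v, hv⟩).memLp_two

lemma IsDGFF.integrable (h : IsDGFF N μ η) {v : V} (hv : v ∈ box N) : Integrable (η v) μ :=
  (h.gaussian.hasGaussianLaw_eval ⟨v, hv⟩).integrable

lemma IsDGFF.base (h : IsDGFF N μ η) : HasGaussianLaw (fun ω (v : box N) => η v ω) μ := by
  have h1 := h.gaussian.hasGaussianLaw Finset.univ
  let L : ({x // x ∈ (Finset.univ : Finset (box N))} → ℝ) →L[ℝ] (box N → ℝ) :=
    { toFun := fun x v => x ⟨v, Finset.mem_univ v⟩
      map_add' := fun x y => rfl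
      map_smul' := fun c x => rfl
      cont := by fun_prop }
  exact h1.map L

/-- linear form with coefficients `c` on the interior -/
noncomputable def linL (N : ℕ) (c : V → ℝ) : (box N → ℝ) →L[ℝ] ℝ :=
  ∑ u ∈ (inn N).attach, c u • ContinuousLinearMap.proj (R := ℝ) (φ := fun _ : box N => ℝ)
    ⟨u, inn_subset_box N u.2⟩

lemma linL_apply (N : ℕ) (c : V → ℝ) (x : V → ℝ) :
    linL N c (fun v : box N => x v) = ∑ u ∈ inn N, c u * x u := by
  unfold linL
  rw [_root_.sum_apply]
  simp only [_root_.smul_apply, ContinuousLinearMap.proj_apply, smul_eq_mul]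
  exact Finset.sum_attach (inn N) (fun u => c u * x u)

/-- the linear functional `X_f = Σ (lap f)(u) η_u` -/
noncomputable def XX (N : ℕ) (η : V → Ω → ℝ) (f : V → ℝ) (ω : Ω) : ℝ :=
  ∑ u ∈ inn N, lap f u * η u ω

omit [MeasurableSpace Ω] in
lemma XX_sub (f g : V → ℝ) (ω : Ω) : XX N η (fun v => f v - g v) ω = XX N η f ω - XX N η g ω := by
  unfold XX
  rw [← Finset.sum_sub_distrib]
  refine Finset.sum_congr rfl (fun u _ => ?_)
  rw [lap_sub]; ring

omit [MeasurableSpace Ω] in
lemma XX_eqp {E : Finset V} (hE : E ⊆ inn N) (ω : Ω) :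
    XX N η (eqp (inn N) E) ω = Mo (inn N) E (fun v => η v ω) := by
  unfold XX Mo
  rw [← Finset.sum_subset hE]
  · rfl
  · intro v hv hvE
    rw [lap_eqp hv hvE]; ring

lemma IsDGFF.XX_gauss (h : IsDGFF N μ η) (f : V → ℝ) : HasGaussianLaw (XX N η f) μ := by
  have h1 := h.base.map (linL N (lap f))
  have : (linL N (lap f)) ∘ (fun ω (v : box N) => η v ω) = XX N η f := by
    ext ω
    exact linL_apply N (lap f) (fun v => η v ω)
  rw [← this]; exact h1

lemma IsDGFF.XX_mean (h : IsDGFF N μ η) (f : V → ℝ) : ∫ ω, XX N η f ω ∂μ = 0 := by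
  unfold XX
  rw [integral_finsetSum]
  · refine Finset.sum_eq_zero (fun u hu => ?_)
    rw [integral_const_mul, h.centred u (inn_subset_box N hu), mul_zero]
  · intro u hu
    exact (h.integrable (inn_subset_box N hu)).const_mul _

lemma IsDGFF.cov_eta_XX (h : IsDGFF N μ η) {f : V → ℝ} (hf : ∀ v ∉ inn N, f v = 0) {w : V}
    (hw : w ∈ inn N) : cov[η w, XX N η f; μ] = f w := by
  have := h.isProb
  have e : XX N η f = fun ω => ∑ u ∈ inn N, (fun ω => lap f u * η u ω) ω := rfl
  rw [e, covariance_fun_sum_right' (X := fun u ω => lap f u * η u ω)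
    (fun u hu => (h.memLp (inn_subset_box N hu)).const_mul _) (h.memLp (inn_subset_box N hw))]
  rw [← green_lap f hf hw]
  refine Finset.sum_congr rfl (fun u hu => ?_)
  rw [covariance_const_mul_right, h.covariance w (inn_subset_box N hw) u (inn_subset_box N hu)]
  ring

lemma IsDGFF.cov_XX_XX (h : IsDGFF N μ η) {f g : V → ℝ} (hf : ∀ v ∉ inn N, f v = 0)
    : cov[XX N η g, XX N η f; μ] = D g f := by
  have := h.isProb
  have e : XX N η g = fun ω => ∑ u ∈ inn N, (fun ω => lap g u * η u ω) ω := rfl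
  rw [e, covariance_fun_sum_left' (X := fun u ω => lap g u * η u ω)
    (fun u hu => (h.memLp (inn_subset_box N hu)).const_mul _) (h.XX_gauss f).memLp_two]
  rw [← tsum_lap_mul (supp_of_inn hf), tsum_eq_sum (s := inn N)]
  · refine Finset.sum_congr rfl (fun u hu => ?_)
    rw [covariance_const_mul_left, h.cov_eta_XX hf hu]
  · intro v hv
    rw [hf v hv]; ring

lemma IsDGFF.var_XX (h : IsDGFF N μ η) {f : V → ℝ} (hf : ∀ v ∉ inn N, f v = 0) :
    Var[XX N η f; μ] = D f f := by
  rw [← covariance_self (h.XX_gauss f).aemeasurable]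
  exact h.cov_XX_XX hf

/-- law of a centred gaussian variable -/
lemma law_of_gauss {Y : Ω → ℝ} (hY : HasGaussianLaw Y μ) (h0 : ∫ ω, Y ω ∂μ = 0) :
    μ.map Y = gaussianReal 0 (Var[Y; μ]).toNNReal := by
  rw [hY.map_eq_gaussianReal, h0]

lemma lintegral_exp_gauss {Y : Ω → ℝ} (hY : HasGaussianLaw Y μ) (h0 : ∫ ω, Y ω ∂μ = 0) (t : ℝ) :
    ∫⁻ ω, ENNReal.ofReal (Real.exp (t * Y ω)) ∂μ =
      ENNReal.ofReal (Real.exp (t ^ 2 * Var[Y; μ] / 2)) := by
  have hlaw := law_of_gauss hY h0
  have hmgf := mgf_gaussianReal hlaw t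
  have hint : Integrable (fun ω => Real.exp (t * Y ω)) μ := by
    have h1 := integrable_exp_mul_gaussianReal (μ := 0) (v := (Var[Y; μ]).toNNReal) t
    rw [← hlaw] at h1
    exact (integrable_map_measure (by fun_prop) hY.aemeasurable).1 h1
  rw [← ofReal_integral_eq_lintegral_ofReal hint (Filter.Eventually.of_forall
    (fun ω => (Real.exp_pos _).le))]
  congr 1
  rw [mgf] at hmgf
  rw [hmgf, Real.coe_toNNReal _ (variance_nonneg _ _)]
  ring_nf

/-- measurability of events of the exploration -/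
lemma meas_set {α : Type*} [MeasurableSpace α] {U : Finset V} (x : V → α → ℝ) (lam : ℝ)
    (hx : ∀ v ∈ U, Measurable (x v)) (P : (V → Prop) → Prop)
    (hP : ∀ o o' : V → Prop, (∀ v ∈ U, o v ↔ o' v) → (P o ↔ P o')) :
    MeasurableSet {a | P (fun v => x v a ≤ lam)} := by
  have e : {a | P (fun v => x v a ≤ lam)} =
      ⋃ O ∈ U.powerset.filter (fun O => P (fun v => v ∈ O)),
        ⋂ v ∈ U, {a | x v a ≤ lam ↔ v ∈ O} := by
    ext a
    simp only [Set.mem_ofPred_eq, Set.mem_iUnion, Set.mem_iInter, exists_prop, Finset.mem_filter,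
      Finset.mem_powerset]
    constructor
    · intro ha
      refine ⟨U.filter (fun v => x v a ≤ lam), ⟨Finset.filter_subset _ _, ?_⟩, ?_⟩
      · refine (hP _ _ (fun v hv => ?_)).1 ha
        simp [hv]
      · intro v hv; simp [hv]
    · rintro ⟨O, ⟨_, hO⟩, hO'⟩
      exact (hP _ _ (fun v hv => (hO' v hv).symm)).1 hO
  rw [e]
  refine Finset.measurableSet_biUnion _ (fun O _ => Finset.measurableSet_biInter _ (fun v hv => ?_))
  by_cases hvO : v ∈ O
  · simp only [hvO, iff_true]
    exact measurableSet_le (hx v hv) measurable_const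
  · simp only [hvO, iff_false]
    exact (measurableSet_le (hx v hv) measurable_const).compl

lemma Bs_congr_U {U S : Finset V} (hS : S ⊆ U) {o o' : V → Prop} (h : ∀ v ∈ U, o v ↔ o' v)
    (r : ℕ) : Bs U S o r = Bs U S o' r := by
  unfold Bs
  rw [st_congr (r := r) (fun v hv => h v (Bs_subset hS r hv)) r le_rfl]

lemma meas_Bs {α : Type*} [MeasurableSpace α] {U S : Finset V} (hS : S ⊆ U) (x : V → α → ℝ)
    (lam : ℝ) (hx : ∀ v ∈ U, Measurable (x v)) (r : ℕ) (E : Finset V) :
    MeasurableSet {a | Bs U S (fun v => x v a ≤ lam) r = E} :=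
  meas_set x lam hx (fun o => Bs U S o r = E) (fun o o' h => by rw [Bs_congr_U hS h])

lemma meas_Reach {α : Type*} [MeasurableSpace α] {U S T : Finset V} (hS : S ⊆ U) (hT : T ⊆ U)
    (x : V → α → ℝ) (lam : ℝ) (hx : ∀ v ∈ U, Measurable (x v)) (R : ℕ) :
    MeasurableSet {a | Reach U S T (fun v => x v a) lam R} :=
  meas_set x lam hx (fun o => ∃ v ∈ T, o v ∧ v ∈ Bs U S o R) (fun o o' h => by
    constructor
    · rintro ⟨v, hv, hvo, hvB⟩
      exact ⟨v, hv, (h v (hT hv)).1 hvo, by rwa [← Bs_congr_U hS h]⟩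
    · rintro ⟨v, hv, hvo, hvB⟩
      exact ⟨v, hv, (h v (hT hv)).2 hvo, by rwa [Bs_congr_U hS h]⟩)

/-- independence of the field on `E` and a functional vanishing on `E` -/
lemma IsDGFF.indep (h : IsDGFF N μ η) {E : Finset V} (hE : E ⊆ inn N) {f : V → ℝ}
    (hf : ∀ v ∉ inn N, f v = 0) (hfE : ∀ v ∈ E, f v = 0) :
    IndepFun (fun ω (w : E) => η w ω) (fun ω (_ : Unit) => XX N η f ω) μ := by
  apply HasGaussianLaw.indepFun_of_covariance_eval (X := fun (w : E) ω => η w ω)
    (Y := fun (_ : Unit) ω => XX N η f ω)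
  · let L1 : (box N → ℝ) →L[ℝ] (E → ℝ) := ContinuousLinearMap.pi (fun w : E =>
      ContinuousLinearMap.proj (R := ℝ) (φ := fun _ : box N => ℝ)
        ⟨w, inn_subset_box N (hE w.2)⟩)
    let L2 : (box N → ℝ) →L[ℝ] (Unit → ℝ) := ContinuousLinearMap.pi (fun _ : Unit =>
      linL N (lap f))
    have h1 := h.base.map (L1.prod L2)
    have : (L1.prod L2) ∘ (fun ω (v : box N) => η v ω) =
        fun ω => (fun i : E => η i ω, fun _ : Unit => XX N η f ω) := by
      ext ω i
      · rfl
      · exact linL_apply N (lap f) (fun v => η v ω)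
    rw [← this]; exact h1
  · intro w _
    rw [show (fun ω => η (w : V) ω) = η w from rfl, show (fun ω => XX N η f ω) = XX N η f from rfl,
      h.cov_eta_XX hf (hE w.2), hfE w w.2]

lemma XX_measurable (hm : ∀ v, Measurable (η v)) (f : V → ℝ) : Measurable (XX N η f) := by
  unfold XX
  exact Finset.measurable_sum _ (fun u _ => (hm u).const_mul _)

/-- the stopping set inequality -/
lemma IsDGFF.stopping (h : IsDGFF N μ η) (hm : ∀ v, Measurable (η v)) {U S : Finset V}
    (hU : U ⊆ inn N) (hS : S ⊆ U) {F : V → ℝ} (hF0 : ∀ v ∉ inn N, F v = 0)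
    (hF1 : ∀ v ∈ U, F v = 1) (t lam : ℝ) (r : ℕ) :
    ∫⁻ ω, ENNReal.ofReal (Real.exp (t * Mo (inn N) (Bs U S (fun v => η v ω ≤ lam) r)
      (fun v => η v ω))) ∂μ ≤ ENNReal.ofReal (Real.exp (t ^ 2 * D F F / 2)) := by
  have := h.isProb
  have hX := lintegral_exp_gauss (h.XX_gauss F) (h.XX_mean F) t
  rw [h.var_XX hF0] at hX
  rw [← hX]
  have e1 : ∀ ω, ENNReal.ofReal (Real.exp (t * Mo (inn N) (Bs U S (fun v => η v ω ≤ lam) r)
      (fun v => η v ω))) = ∑ E ∈ U.powerset, {ω | Bs U S (fun v => η v ω ≤ lam) r = E}.indicator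
        (fun ω => ENNReal.ofReal (Real.exp (t * Mo (inn N) E (fun v => η v ω)))) ω := by
    intro ω
    rw [Finset.sum_eq_single (Bs U S (fun v => η v ω ≤ lam) r)]
    · rw [Set.indicator_of_mem]; rfl
    · intro E _ hE
      rw [Set.indicator_of_notMem]
      intro hh; exact hE hh.symm
    · intro hh
      exact absurd (Finset.mem_powerset.2 (Bs_subset hS r)) hh
  have e2 : ∀ ω, ENNReal.ofReal (Real.exp (t * XX N η F ω)) =
      ∑ E ∈ U.powerset, {ω | Bs U S (fun v => η v ω ≤ lam) r = E}.indicator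
        (fun ω => ENNReal.ofReal (Real.exp (t * XX N η F ω))) ω := by
    intro ω
    rw [Finset.sum_eq_single (Bs U S (fun v => η v ω ≤ lam) r)]
    · rw [Set.indicator_of_mem]; rfl
    · intro E _ hE
      rw [Set.indicator_of_notMem]
      intro hh; exact hE hh.symm
    · intro hh
      exact absurd (Finset.mem_powerset.2 (Bs_subset hS r)) hh
  rw [lintegral_congr e1, lintegral_congr e2]
  have hXm : Measurable (XX N η F) := XX_measurable hm F
  have hMm : ∀ E : Finset V, Measurable (fun ω => Mo (inn N) E (fun v => η v ω)) := by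
    intro E; unfold Mo
    exact Finset.measurable_sum _ (fun u _ => (hm u).const_mul _)
  rw [lintegral_finsetSum, lintegral_finsetSum]
  rotate_left
  · intro E _
    exact (ENNReal.measurable_ofReal.comp (Real.measurable_exp.comp (hXm.const_mul t))).indicator
      (meas_Bs hS η lam (fun v _ => hm v) r E)
  · intro E _
    exact (ENNReal.measurable_ofReal.comp (Real.measurable_exp.comp ((hMm E).const_mul t))).indicator
      (meas_Bs hS η lam (fun v _ => hm v) r E)
  refine Finset.sum_le_sum (fun E hE => ?_)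
  have hEU : E ⊆ U := Finset.mem_powerset.1 hE
  have hEI : E ⊆ inn N := hEU.trans hU
  set f : V → ℝ := fun v => F v - eqp (inn N) E v with hf
  have hf0 : ∀ v ∉ inn N, f v = 0 := by
    intro v hv; rw [hf]; show F v - eqp (inn N) E v = 0; rw [hF0 v hv, eqp_zero hEI hv]; ring
  have hfE : ∀ v ∈ E, f v = 0 := by
    intro v hv; rw [hf]; show F v - eqp (inn N) E v = 0; rw [hF1 v (hEU hv), eqp_one hv]; ring
  have hind := h.indep hEI hf0 hfE
  -- the two factors
  let ext : (E → ℝ) → V → ℝ := fun z v => if hv : v ∈ E then z ⟨v, hv⟩ else lam + 1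
  have hextm : ∀ v, Measurable (fun z : E → ℝ => ext z v) := by
    intro v
    by_cases hv : v ∈ E
    · have : (fun z : E → ℝ => ext z v) = fun z => z ⟨v, hv⟩ := by
        funext z; exact dif_pos hv
      rw [this]; exact measurable_pi_apply _
    · have : (fun z : E → ℝ => ext z v) = fun _ => lam + 1 := by
        funext z; exact dif_neg hv
      rw [this]; exact measurable_const
  let φ : (E → ℝ) → ℝ≥0∞ := {z | Bs U S (fun v => ext z v ≤ lam) r = E}.indicator
    (fun z => ENNReal.ofReal (Real.exp (t * Mo (inn N) E (ext z))))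
  have hφm : Measurable φ := by
    refine Measurable.indicator ?_
      (meas_Bs hS (fun v z => ext z v) lam (fun v _ => hextm v) r E)
    refine ENNReal.measurable_ofReal.comp (Real.measurable_exp.comp (Measurable.const_mul ?_ t))
    unfold Mo
    exact Finset.measurable_sum _ (fun u _ => (hextm u).const_mul _)
  let ψ : (Unit → ℝ) → ℝ≥0∞ := fun z => ENNReal.ofReal (Real.exp (t * z ()))
  have hψm : Measurable ψ := by
    have h0 : Measurable (fun z : Unit → ℝ => z ()) := measurable_pi_apply ()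
    exact ENNReal.measurable_ofReal.comp (Real.measurable_exp.comp (h0.const_mul t))
  have hφ : ∀ ω, φ (fun w : E => η w ω) = {ω | Bs U S (fun v => η v ω ≤ lam) r = E}.indicator
        (fun ω => ENNReal.ofReal (Real.exp (t * Mo (inn N) E (fun v => η v ω)))) ω := by
    intro ω
    have a1 : ∀ v ∈ E, ext (fun w : E => η w ω) v = η v ω := by
      intro v hv; exact dif_pos hv
    have a2 : Bs U S (fun v => ext (fun w : E => η w ω) v ≤ lam) r = E ↔
        Bs U S (fun v => η v ω ≤ lam) r = E := Bs_eq_iff (fun v hv => by rw [a1 v hv])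
    have a3 : Mo (inn N) E (ext (fun w : E => η w ω)) = Mo (inn N) E (fun v => η v ω) := by
      unfold Mo
      exact Finset.sum_congr rfl (fun v hv => by rw [a1 v hv])
    simp only [φ, Set.indicator_apply, Set.mem_ofPred_eq, a2, a3]
  have hprod := lintegral_mul_eq_lintegral_mul_lintegral_of_indepFun
    (μ := μ) (f := φ ∘ (fun ω (w : E) => η w ω)) (g := ψ ∘ (fun ω (_ : Unit) => XX N η f ω))
    (hφm.comp (measurable_pi_lambda _ (fun w => hm w)))
    (hψm.comp (measurable_pi_lambda _ (fun _ => XX_measurable hm f)))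
    (hind.comp hφm hψm)
  have hone : 1 ≤ ∫⁻ ω, (ψ ∘ (fun ω (_ : Unit) => XX N η f ω)) ω ∂μ := by
    have := lintegral_exp_gauss (h.XX_gauss f) (h.XX_mean f) t
    have e : ∫⁻ ω, (ψ ∘ (fun ω (_ : Unit) => XX N η f ω)) ω ∂μ =
      ∫⁻ ω, ENNReal.ofReal (Real.exp (t * XX N η f ω)) ∂μ := rfl
    rw [e, this]
    rw [show (1 : ℝ≥0∞) = ENNReal.ofReal 1 by simp]
    apply ENNReal.ofReal_le_ofReal
    apply Real.one_le_exp
    have := variance_nonneg (XX N η f) μ
    positivity
  calc ∫⁻ ω, {ω | Bs U S (fun v => η v ω ≤ lam) r = E}.indicator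
        (fun ω => ENNReal.ofReal (Real.exp (t * Mo (inn N) E (fun v => η v ω)))) ω ∂μ
      = (∫⁻ ω, (φ ∘ (fun ω (w : E) => η w ω)) ω ∂μ) * 1 := by
        rw [mul_one]
        refine lintegral_congr (fun ω => ?_)
        exact (hφ ω).symm
    _ ≤ (∫⁻ ω, (φ ∘ (fun ω (w : E) => η w ω)) ω ∂μ) *
        ∫⁻ ω, (ψ ∘ (fun ω (_ : Unit) => XX N η f ω)) ω ∂μ := by gcongr
    _ = ∫⁻ ω, {ω | Bs U S (fun v => η v ω ≤ lam) r = E}.indicator
        (fun ω => ENNReal.ofReal (Real.exp (t * XX N η F ω))) ω ∂μ := by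
        rw [← hprod]
        refine lintegral_congr (fun ω => ?_)
        show φ (fun w : E => η w ω) * ENNReal.ofReal (Real.exp (t * XX N η f ω)) = _
        rw [hφ ω]
        by_cases hω : ω ∈ {ω | Bs U S (fun v => η v ω ≤ lam) r = E}
        · rw [Set.indicator_of_mem hω, Set.indicator_of_mem hω,
            ← ENNReal.ofReal_mul (Real.exp_pos _).le, ← Real.exp_add]
          congr 2
          rw [hf, XX_sub, XX_eqp hEI]; ring
        · rw [Set.indicator_of_notMem hω, Set.indicator_of_notMem hω, zero_mul]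

end Pool.H92.GFF
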