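import Pool.Agent.helper92.GFF.Final

/-!
Shifting the field along the cutoff function: lower bounds at every level.
-/

namespace Pool.H92.GFF

open Function Finset MeasureTheory ProbabilityTheory
open scoped Classical ENNReal NNReal

variable {N : ℕ} {Ω : Type*} [MeasurableSpace Ω] {μ : Measure Ω} {η : V → Ω → ℝ}

lemma gauss_lower {κ κ' s : ℝ} (hκ : 0 < κ) (hκ' : κ ≤ κ') (hs : 0 ≤ s) :
    gaussianReal 0 1 (Set.Iic (-(s * √κ'))) ≤ gaussianReal 0 κ.toNNReal (Set.Iic (-(s * κ))) := by
  have h1 := gaussianReal_map_const_mul (μ := 0) (v := 1) (√κ)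
  have h2 : (.mk (√κ ^ 2) (sq_nonneg _) * 1 : ℝ≥0) = κ.toNNReal := by
    ext
    simp [Real.sq_sqrt hκ.le, hκ.le]
  rw [mul_zero, h2] at h1
  rw [← h1, Measure.map_apply (by fun_prop) measurableSet_Iic]
  apply measure_mono
  intro x hx
  have hx' : x ≤ -(s * √κ') := hx
  show √κ * x ≤ -(s * κ)
  have h3 : √κ ≤ √κ' := Real.sqrt_le_sqrt hκ'
  have h4 : x ≤ -(s * √κ) := by nlinarith [mul_le_mul_of_nonneg_left h3 hs]
  have h5 : √κ * √κ = κ := Real.mul_self_sqrt hκ.le
  calc √κ * x ≤ √κ * (-(s * √κ)) := mul_le_mul_of_nonneg_left h4 (Real.sqrt_nonneg _)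
    _ = -(s * κ) := by rw [← h5]; ring_nf; rw [Real.sqrt_sq_eq_abs, abs_of_nonneg (Real.sqrt_nonneg _)]

lemma gauss_pos (s : ℝ) : 0 < gaussianReal 0 1 (Set.Iic s) := by
  rw [pos_iff_ne_zero]
  intro h
  have h1 := gaussianReal_absolutelyContinuous' 0 (one_ne_zero (α := ℝ≥0)) h
  rw [Real.volume_Iic] at h1
  exact ENNReal.top_ne_zero h1

lemma IsDGFF.indepW (h : IsDGFF N μ η) {U : Finset V} (hU : U ⊆ inn N) {F : V → ℝ}
    (hF0 : ∀ v ∉ inn N, F v = 0) (hF1 : ∀ v ∈ U, F v = 1) (hκ : 0 < D F F) :
    IndepFun (fun ω (w : U) => η w ω - (1 / D F F) * XX N η F ω)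
      (fun ω (_ : Unit) => XX N η F ω) μ := by
  have := h.isProb
  apply HasGaussianLaw.indepFun_of_covariance_eval
    (X := fun (w : U) ω => η w ω - (1 / D F F) * XX N η F ω)
    (Y := fun (_ : Unit) ω => XX N η F ω)
  · let L1 : (box N → ℝ) →L[ℝ] (U → ℝ) := ContinuousLinearMap.pi (fun w : U =>
      ContinuousLinearMap.proj (R := ℝ) (φ := fun _ : box N => ℝ)
        ⟨w, inn_subset_box N (hU w.2)⟩ - (1 / D F F) • linL N (lap F))
    let L2 : (box N → ℝ) →L[ℝ] (Unit → ℝ) := ContinuousLinearMap.pi (fun _ : Unit =>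
      linL N (lap F))
    have h1 := h.base.map (L1.prod L2)
    have : (L1.prod L2) ∘ (fun ω (v : box N) => η v ω) =
        fun ω => (fun i : U => η i ω - (1 / D F F) * XX N η F ω, fun _ : Unit => XX N η F ω) := by
      ext ω i
      · have e := linL_apply N (lap F) (fun v => η v ω)
        show η i ω - (1 / D F F) * (linL N (lap F)) (fun v : box N => η v ω) = _
        rw [e]; rfl
      · exact linL_apply N (lap F) (fun v => η v ω)
    rw [← this]; exact h1
  · intro w _
    have hw := hU w.2
    have e1 : cov[fun ω => η (w : V) ω - (1 / D F F) * XX N η F ω, fun ω => XX N η F ω; μ] =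
        cov[η w, XX N η F; μ] - cov[fun ω => (1 / D F F) * XX N η F ω, XX N η F; μ] :=
      covariance_fun_sub_left (h.memLp (inn_subset_box N hw))
        ((h.XX_gauss F).memLp_two.const_mul _) (h.XX_gauss F).memLp_two
    rw [e1, covariance_const_mul_left, h.cov_eta_XX hF0 hw, h.cov_XX_XX hF0, hF1 w w.2]
    field_simp
    ring

/-- lower bound at an arbitrary level -/
lemma IsDGFF.level (h : IsDGFF N μ η) (hm : ∀ v, Measurable (η v)) {U S T : Finset V}
    (hU : U ⊆ inn N) (hS : S ⊆ U) (hT : T ⊆ U)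
    {F : V → ℝ} (hF0 : ∀ v ∉ inn N, F v = 0) (hF1 : ∀ v ∈ U, F v = 1)
    {lam lam1 b κ' : ℝ} {R : ℕ} (hb : 0 ≤ b) (hκ : 2 * 2 ≤ b ^ 2 * D F F) (hκ' : D F F ≤ κ')
    (hlam : lam ≤ lam1 + b)
    (hgood : μ {ω | ¬ Reach U S T (fun v => η v ω) lam1 R} ≤ ENNReal.ofReal (1 / 4)) :
    ENNReal.ofReal (1 / 2) * gaussianReal 0 1 (Set.Iic (-((lam1 + b - lam) * √κ'))) ≤
      μ {ω | Reach U S T (fun v => η v ω) lam R} := by
  have := h.isProb
  have hDnn := D_self_nonneg F
  have hκpos : 0 < D F F := by
    by_contra hcon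
    have : D F F = 0 := le_antisymm (not_lt.1 hcon) hDnn
    rw [this] at hκ; norm_num at hκ
  set X : Ω → ℝ := XX N η F with hX
  have hXm : Measurable X := XX_measurable hm F
  set W : V → Ω → ℝ := fun v ω => η v ω - (1 / D F F) * X ω with hW
  have hWm : ∀ v, Measurable (W v) := fun v => (hm v).sub (hXm.const_mul _)
  have hXg := h.XX_gauss F
  have hX0 := h.XX_mean F
  have hXv := h.var_XX hF0
  -- step 1
  have hstep1 : ENNReal.ofReal (1 / 2) ≤ μ {ω | Reach U S T (fun v => W v ω) (lam1 + b) R} := by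
    have h1 : (Set.univ : Set Ω) ⊆ {ω | ¬ Reach U S T (fun v => η v ω) lam1 R} ∪
        ({ω | Reach U S T (fun v => W v ω) (lam1 + b) R} ∪ {ω | b * D F F ≤ XX N η
          (fun v => 0 - F v) ω}) := by
      intro ω _
      by_cases h2 : Reach U S T (fun v => η v ω) lam1 R
      · right
        by_cases h3 : b * D F F ≤ - X ω
        · right
          show b * D F F ≤ XX N η (fun v => 0 - F v) ω
          rw [XX_sub]
          have : XX N η (fun _ => 0) ω = 0 := by
            unfold XX lap; simp
          rw [this]; linarith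
        · left
          push Not at h3
          refine h2.mono hS hT (fun v hv hv1 => ?_)
          show η v ω - (1 / D F F) * X ω ≤ lam1 + b
          have : - X ω / D F F < b := by
            rw [div_lt_iff₀ hκpos]; exact h3
          have e : (1 / D F F) * X ω = - (- X ω / D F F) := by ring
          rw [e]; linarith
      · left; exact h2
    have h2 := measure_mono (μ := μ) h1
    rw [measure_univ] at h2
    have hF0' : ∀ v ∉ inn N, (0 : ℝ) - F v = 0 := fun v hv => by rw [hF0 v hv]; ring
    have hD' : D (fun v => 0 - F v) (fun v => 0 - F v) = D F F := by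
      unfold D; congr 1; ext v; ring
    have h3 := chernoff (h.XX_gauss (fun v => 0 - F v)) (XX_measurable hm _)
      (h.XX_mean _) hκpos (A := b * D F F) (by rw [h.var_XX hF0', hD'])
    have h4 : μ {ω | b * D F F ≤ XX N η (fun v => 0 - F v) ω} ≤ ENNReal.ofReal (1 / 4) := by
      rcases h3 with h3 | h3
      · refine h3.trans (ENNReal.ofReal_le_ofReal ?_)
        have e : (b * D F F) ^ 2 / (2 * D F F) = b ^ 2 * D F F / 2 := by field_simp
        rw [e]
        have h5 : Real.exp (-(b ^ 2 * D F F / 2)) ≤ Real.exp (-2) := by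
          apply Real.exp_le_exp.2; linarith
        refine h5.trans ?_
        have h6 : (4 : ℝ) ≤ Real.exp 2 := by
          have := Real.exp_one_gt_d9
          have e2 : Real.exp 2 = Real.exp 1 * Real.exp 1 := by rw [← Real.exp_add]; norm_num
          rw [e2]; nlinarith
        rw [Real.exp_neg, one_div]
        exact inv_anti₀ (by norm_num) h6
      · exfalso
        have : 0 ≤ b * D F F := by positivity
        linarith
    have h5 : (1 : ℝ≥0∞) ≤ ENNReal.ofReal (1 / 4) +
        (μ {ω | Reach U S T (fun v => W v ω) (lam1 + b) R} + ENNReal.ofReal (1 / 4)) := by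
      refine h2.trans ((measure_union_le _ _).trans (add_le_add hgood
        ((measure_union_le _ _).trans (add_le_add le_rfl h4))))
    have h6 : ENNReal.ofReal (1 / 2) + ENNReal.ofReal (1 / 2) ≤
        μ {ω | Reach U S T (fun v => W v ω) (lam1 + b) R} + ENNReal.ofReal (1 / 2) := by
      calc ENNReal.ofReal (1 / 2) + ENNReal.ofReal (1 / 2) = 1 := by
            rw [← ENNReal.ofReal_add (by norm_num) (by norm_num)]; norm_num
        _ ≤ _ := h5
        _ = μ {ω | Reach U S T (fun v => W v ω) (lam1 + b) R} +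
            (ENNReal.ofReal (1 / 4) + ENNReal.ofReal (1 / 4)) := by ring
        _ = _ := by
            rw [← ENNReal.ofReal_add (by norm_num) (by norm_num)]; norm_num
    exact (ENNReal.add_le_add_iff_right (by simp)).1 h6
  -- independence
  have hind := h.indepW hU hF0 hF1 hκpos
  let ext : (U → ℝ) → V → ℝ := fun z v => if hv : v ∈ U then z ⟨v, hv⟩ else 0
  have hextm : ∀ v, Measurable (fun z : U → ℝ => ext z v) := by
    intro v
    by_cases hv : v ∈ U
    · have : (fun z : U → ℝ => ext z v) = fun z => z ⟨v, hv⟩ := by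
        funext z; exact dif_pos hv
      rw [this]; exact measurable_pi_apply _
    · have : (fun z : U → ℝ => ext z v) = fun _ => 0 := by
        funext z; exact dif_neg hv
      rw [this]; exact measurable_const
  set A : Set (U → ℝ) := {z | Reach U S T (fun v => ext z v) (lam1 + b) R} with hA
  have hAm : MeasurableSet A := meas_Reach hS hT (fun v z => ext z v) (lam1 + b)
    (fun v _ => hextm v) R
  set B : Set (Unit → ℝ) := {z | z () ≤ -((lam1 + b - lam) * D F F)} with hB
  have hBm : MeasurableSet B := measurableSet_le (measurable_pi_apply ()) measurable_const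
  have hprod := hind.measure_inter_preimage_eq_mul A B hAm hBm
  have hA' : (fun ω (w : U) => η w ω - (1 / D F F) * XX N η F ω) ⁻¹' A =
      {ω | Reach U S T (fun v => W v ω) (lam1 + b) R} := by
    ext ω
    have a1 : ∀ v ∈ U, ext (fun w : U => W w ω) v = W v ω := fun v hv => dif_pos hv
    constructor
    · intro hω
      exact Reach.mono hS hT (show Reach U S T (ext (fun w : U => W w ω)) (lam1 + b) R from hω)
        (fun v hv hv' => by rw [← a1 v hv]; exact hv')
    · intro hω
      exact Reach.mono hS hT (show Reach U S T (fun v => W v ω) (lam1 + b) R from hω)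
        (fun v hv hv' => by rw [a1 v hv]; exact hv')
  have hB' : (fun ω (_ : Unit) => XX N η F ω) ⁻¹' B =
      {ω | X ω ≤ -((lam1 + b - lam) * D F F)} := rfl
  rw [hA', hB'] at hprod
  have hincl : {ω | Reach U S T (fun v => W v ω) (lam1 + b) R} ∩
      {ω | X ω ≤ -((lam1 + b - lam) * D F F)} ⊆ {ω | Reach U S T (fun v => η v ω) lam R} := by
    rintro ω ⟨h1, h2⟩
    refine Reach.mono hS hT (show Reach U S T (fun v => W v ω) (lam1 + b) R from h1)
      (fun v hv hv' => ?_)
    have hv1 : η v ω - (1 / D F F) * X ω ≤ lam1 + b := hv'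
    have h2' : X ω ≤ -((lam1 + b - lam) * D F F) := h2
    have h3 : (1 / D F F) * X ω ≤ -(lam1 + b - lam) := by
      rw [one_div, inv_mul_le_iff₀ hκpos]; linarith
    linarith
  have hlawX : μ {ω | X ω ≤ -((lam1 + b - lam) * D F F)} =
      gaussianReal 0 (D F F).toNNReal (Set.Iic (-((lam1 + b - lam) * D F F))) := by
    have hl := law_of_gauss hXg hX0
    rw [hXv] at hl
    rw [← hl, Measure.map_apply hXm measurableSet_Iic]
    rfl
  calc ENNReal.ofReal (1 / 2) * gaussianReal 0 1 (Set.Iic (-((lam1 + b - lam) * √κ')))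
      ≤ μ {ω | Reach U S T (fun v => W v ω) (lam1 + b) R} *
        μ {ω | X ω ≤ -((lam1 + b - lam) * D F F)} := by
        refine mul_le_mul' hstep1 ?_
        rw [hlawX]
        exact gauss_lower hκpos hκ' (by linarith)
    _ = μ ({ω | Reach U S T (fun v => W v ω) (lam1 + b) R} ∩
        {ω | X ω ≤ -((lam1 + b - lam) * D F F)}) := hprod.symm
    _ ≤ _ := measure_mono hincl

end Pool.H92.GFF
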