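import Mathlib
import Pool.Agent.helper92.GFF.Shift

/-!
# Open crossings of an annulus of length `C N √(log N)` in the level sets of the planar DGFF

For `0 < α < β < 1` there is `C = C(α,β)` such that the chemical distance between `∂V_{αN}` and
`∂V_{βN}` in the level set `{η_N ≤ λ}` exceeds `C N √(log N)` with probability at most
`K exp (-c λ²)`, for all `λ ≥ 0` and all `N` with `αN ≥ 1`; and for every fixed real `λ`
(negative values included) it is at most `C N √(log N)` with probability at least `p(λ) > 0`.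

Method: breadth first exploration of the open cluster of `∂V_{αN}` and harmonic (capacity)
observables of the explored sets; the total squared harmonic weight of the frontiers is bounded
by the capacity, so the frontier contributes little on average over the radii.
-/

namespace Pool.H92.GFF.SqrtLogCrossing

open Function MeasureTheory ProbabilityTheory Pool.H92.GFF
open Finset hiding box
open scoped Classical ENNReal NNReal

universe u

lemma x_ge_one {N : ℕ} (hN : 2 ≤ N) : 1 ≤ (N : ℝ) * √(Real.log N) := by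
  have h1 := log_half hN
  have h2 : (1 / 2 : ℝ) ≤ √(Real.log N) := by
    rw [Real.le_sqrt' (by norm_num)]
    linarith
  have h3 : (2 : ℝ) ≤ N := by exact_mod_cast hN
  nlinarith

lemma sqrt_ge_half {N : ℕ} (hN : 2 ≤ N) : 1 / 2 ≤ √(Real.log N) := by
  have h1 := log_half hN
  rw [Real.le_sqrt' (by norm_num)]
  linarith

lemma two_le_of {α : ℝ} (h0 : 0 < α) (h1 : α < 1) {N : ℕ} (hN : 1 ≤ α * N) : 2 ≤ N := by
  by_contra hcon
  have : N ≤ 1 := by omega
  have h2 : (N : ℝ) ≤ 1 := by exact_mod_cast this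
  nlinarith

/-- chemical distance and reaching -/
lemma chem_le {N : ℕ} {α β : ℝ} (h0 : 0 < α) (h1 : α < β) (h2 : β < 1) {x : V → ℝ} {lam y : ℝ}
    (hy : 0 ≤ y)
    (h : Reach (box ⌊β * N⌋₊) (bd ⌊α * N⌋₊) (bd ⌊β * N⌋₊) x lam ⌊y⌋₊) :
    ((chem N x lam (bd ⌊α * N⌋₊) (bd ⌊β * N⌋₊) : ℕ∞) : ℝ≥0∞) ≤ ENNReal.ofReal y := by
  have hNr : (0 : ℝ) ≤ N := by positivity
  have hKN : ⌊β * N⌋₊ ≤ N := by
    have h3 : (⌊β * N⌋₊ : ℝ) ≤ β * N := Nat.floor_le (by have : 0 < β := by linarith
                                                         positivity)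
    have : (⌊β * N⌋₊ : ℝ) ≤ N := by nlinarith
    exact_mod_cast this
  have hMK : ⌊α * N⌋₊ ≤ ⌊β * N⌋₊ := Nat.floor_le_floor (mul_le_mul_of_nonneg_right h1.le hNr)
  have h3 := chem_le_of_reach (N := N) (box_mono hKN) ((bd_subset_box _).trans (box_mono hMK)) h
  have h4 : ((chem N x lam (bd ⌊α * N⌋₊) (bd ⌊β * N⌋₊) : ℕ∞) : ℝ≥0∞) ≤
      ((⌊y⌋₊ : ℕ∞) : ℝ≥0∞) := by exact_mod_cast h3
  refine h4.trans ?_
  rw [ENat.toENNReal_coe, show (⌊y⌋₊ : ℝ≥0∞) = ENNReal.ofReal (⌊y⌋₊ : ℝ) by simp]
  exact ENNReal.ofReal_le_ofReal (Nat.floor_le hy)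

lemma floor_ge {N : ℕ} (hN : 2 ≤ N) (α β : ℝ) :
    CC α β * (N * √(Real.log N)) ≤ (⌊2 * CC α β * N * √(Real.log N)⌋₊ : ℝ) := by
  have h1 := Nat.lt_floor_add_one (2 * CC α β * N * √(Real.log N))
  have h2 : 1 ≤ CC α β * (N * √(Real.log N)) := by
    have := x_ge_one hN
    have := CC_one (α := α) (β := β)
    nlinarith
  have h3 : 2 * CC α β * N * √(Real.log N) = 2 * (CC α β * (N * √(Real.log N))) := by ring
  rw [h3] at h1 ⊢
  linarith

theorem result (α β : ℝ) (hα : 0 < α) (hαβ : α < β) (hβ : β < 1) :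
    ∃ C : ℝ, 0 < C ∧
      (∃ K c : ℝ, 0 < K ∧ 0 < c ∧ ∀ N : ℕ, 1 ≤ α * N → ∀ lam : ℝ, 0 ≤ lam →
        ∀ (Ω : Type u) [MeasurableSpace Ω] (μ : Measure Ω) (η : ℤ × ℤ → Ω → ℝ), IsDGFF N μ η →
          μ {ω | ENNReal.ofReal (C * N * √(Real.log N)) <
            (chem N (fun v => η v ω) lam (bd ⌊α * N⌋₊) (bd ⌊β * N⌋₊) : ℝ≥0∞)} ≤
          ENNReal.ofReal (K * Real.exp (-(c * lam ^ 2)))) ∧
      (∀ lam : ℝ, ∃ p : ℝ, 0 < p ∧ ∀ N : ℕ, 1 ≤ α * N → 2 ≤ (1 - β) * N →
        ∀ (Ω : Type u) [MeasurableSpace Ω] (μ : Measure Ω) (η : ℤ × ℤ → Ω → ℝ), IsDGFF N μ η →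
          ENNReal.ofReal p ≤ μ {ω | (chem N (fun v => η v ω) lam (bd ⌊α * N⌋₊)
            (bd ⌊β * N⌋₊) : ℝ≥0∞) ≤ ENNReal.ofReal (C * N * √(Real.log N))}) := by
  have hb : 0 < 1 - β := by linarith
  have hC1 := CC_one (α := α) (β := β)
  have hα1 : α < 1 := by linarith
  refine ⟨2 * CC α β, by linarith, ⟨3 + 4 / (1 - β) ^ 2, α ^ 2 * (1 - β) ^ 2 / 1024, by positivity,
    by positivity, ?_⟩, ?_⟩
  · intro N hN lam hlam Ω _ μ η h
    have hprob := h.isProb
    have hN2 := two_le_of hα hα1 hN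
    have hxpos : 0 ≤ 2 * CC α β * N * √(Real.log N) := by positivity
    rcases hlam.eq_or_lt with hlam0 | hlam0
    · refine prob_le_one.trans ?_
      rw [← hlam0, show (1 : ℝ≥0∞) = ENNReal.ofReal 1 by simp]
      apply ENNReal.ofReal_le_ofReal
      have : 0 ≤ 4 / (1 - β) ^ 2 := by positivity
      norm_num
      linarith
    obtain ⟨η', h', hm', hae⟩ := h.modify
    by_cases hNl : 2 ≤ (1 - β) * N
    · have hl := h'.large hm' hα hαβ hβ hN hNl hlam0 (floor_ge hN2 α β)
      have hKN : box ⌊β * N⌋₊ ⊆ box N := by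
        obtain ⟨_, _, d, _, h4, _⟩ := geom hα hαβ hβ hN hNl
        exact box_mono (by omega)
      have hMK : ⌊α * N⌋₊ ≤ ⌊β * N⌋₊ :=
        Nat.floor_le_floor (mul_le_mul_of_nonneg_right hαβ.le (by positivity))
      calc μ {ω | ENNReal.ofReal (2 * CC α β * N * √(Real.log N)) <
            (chem N (fun v => η v ω) lam (bd ⌊α * N⌋₊) (bd ⌊β * N⌋₊) : ℝ≥0∞)}
          ≤ μ {ω | ¬ Reach (box ⌊β * N⌋₊) (bd ⌊α * N⌋₊) (bd ⌊β * N⌋₊) (fun v => η' v ω) lam
              ⌊2 * CC α β * N * √(Real.log N)⌋₊} := by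
            apply measure_mono_ae
            filter_upwards [hae] with ω hω
            intro h1 h2
            have h1' : ENNReal.ofReal (2 * CC α β * N * √(Real.log N)) <
              (chem N (fun v => η v ω) lam (bd ⌊α * N⌋₊) (bd ⌊β * N⌋₊) : ℝ≥0∞) := h1
            refine absurd (chem_le (N := N) hα hαβ hβ hxpos (x := fun v => η v ω) (lam := lam)
              ?_) (not_le.2 h1')
            exact Reach.mono ((bd_subset_box _).trans (box_mono hMK)) (bd_subset_box _) h2
              (fun v hv hv' => by rw [hω v (hKN hv)]; exact hv')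
        _ ≤ ENNReal.ofReal (3 * Real.exp (-(α ^ 2 * (1 - β) ^ 2 / 1024 * lam ^ 2))) := hl
        _ ≤ _ := by
            apply ENNReal.ofReal_le_ofReal
            apply mul_le_mul_of_nonneg_right _ (Real.exp_pos _).le
            have : 0 ≤ 4 / (1 - β) ^ 2 := by positivity
            linarith
    · push Not at hNl
      have hNle : (N : ℝ) ≤ 2 / (1 - β) := by
        rw [le_div_iff₀ hb]; linarith
      have hNr : (2 : ℝ) ≤ N := by exact_mod_cast hN2
      have hlogN : Real.log (2 * N) ≤ 2 * N := by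
        have := Real.log_le_sub_one_of_pos (show (0 : ℝ) < 2 * N by positivity)
        linarith
      have hσ : ∀ v ∈ inn N, Var[η' v; μ] ≤ 1 + 4 / (1 - β) := by
        intro v hv
        have h1 := h'.var_eta hv
        have h2 : 2 * (N : ℝ) ≤ 4 / (1 - β) := by
          have : 4 / (1 - β) = 2 * (2 / (1 - β)) := by ring
          rw [this]; linarith
        linarith
      have hM1 : 1 ≤ ⌊α * N⌋₊ := Nat.le_floor (by simpa using hN)
      have hMK : ⌊α * N⌋₊ ≤ ⌊β * N⌋₊ :=
        Nat.floor_le_floor (mul_le_mul_of_nonneg_right hαβ.le (by positivity))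
      have hKN : ⌊β * N⌋₊ ≤ N := by
        have h3 : (⌊β * N⌋₊ : ℝ) ≤ β * N := Nat.floor_le (by
          have : 0 < β := by linarith
          positivity)
        have : (⌊β * N⌋₊ : ℝ) ≤ N := by nlinarith
        exact_mod_cast this
      have hincl : μ {ω | ENNReal.ofReal (2 * CC α β * N * √(Real.log N)) <
            (chem N (fun v => η v ω) lam (bd ⌊α * N⌋₊) (bd ⌊β * N⌋₊) : ℝ≥0∞)} ≤
          μ (⋃ v ∈ inn N, {ω | lam ≤ η' v ω}) := by
        have hbd : ∀ᵐ ω ∂μ, ∀ v ∈ bd N, η v ω = 0 := by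
          rw [Finset.eventually_all]; exact h.boundary
        apply measure_mono_ae
        filter_upwards [hae, hbd] with ω hω hω0
        intro h1
        have h1' : ENNReal.ofReal (2 * CC α β * N * √(Real.log N)) <
          (chem N (fun v => η v ω) lam (bd ⌊α * N⌋₊) (bd ⌊β * N⌋₊) : ℝ≥0∞) := h1
        show ω ∈ (⋃ v ∈ inn N, {ω | lam ≤ η' v ω})
        by_contra hcon
        have hall : ∀ v ∈ box N, η v ω ≤ lam := by
          intro v hv
          by_cases hvi : v ∈ inn N
          · have : ¬ lam ≤ η' v ω := fun hh => hcon (Set.mem_biUnion hvi hh)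
            rw [hω v hv]
            exact (not_le.1 this).le
          · have hvb : v ∈ bd N := by
              by_contra hh
              exact hvi (Finset.mem_sdiff.2 ⟨hv, hh⟩)
            rw [hω0 v hvb]; exact hlam
        have h2 := chem_le_all_open (N := N) (x := fun v => η v ω) hM1 hMK hKN hall
        have h3 : ((chem N (fun v => η v ω) lam (bd ⌊α * N⌋₊) (bd ⌊β * N⌋₊) : ℕ∞) : ℝ≥0∞) ≤
          ((N : ℕ∞) : ℝ≥0∞) := by exact_mod_cast h2
        have h4 : ((N : ℕ∞) : ℝ≥0∞) ≤ ENNReal.ofReal (2 * CC α β * N * √(Real.log N)) := by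
          rw [ENat.toENNReal_coe, show (N : ℝ≥0∞) = ENNReal.ofReal (N : ℝ) by simp]
          apply ENNReal.ofReal_le_ofReal
          have h5 := sqrt_ge_half hN2
          have h6 : 1 ≤ 2 * CC α β * √(Real.log N) := by nlinarith
          nlinarith
        exact absurd (h3.trans h4) (not_le.2 h1')
      refine hincl.trans ((measure_biUnion_finset_le _ _).trans ?_)
      calc ∑ v ∈ inn N, μ {ω | lam ≤ η' v ω}
          ≤ ∑ v ∈ inn N, ENNReal.ofReal (Real.exp (-(α ^ 2 * (1 - β) ^ 2 / 1024 * lam ^ 2))) := by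
            refine Finset.sum_le_sum (fun v hv => ?_)
            have h1 := chernoff (h'.gaussian.hasGaussianLaw_eval ⟨v, inn_subset_box N hv⟩) (hm' v)
              (h'.centred v (inn_subset_box N hv)) (v := 1 + 4 / (1 - β)) (A := lam)
              (by positivity) (hσ v hv)
            rcases h1 with h1 | h1
            · refine h1.trans (ENNReal.ofReal_le_ofReal (Real.exp_le_exp.2 (neg_le_neg ?_)))
              rw [div_eq_inv_mul (lam ^ 2), ← one_div]
              apply mul_le_mul_of_nonneg_right _ (sq_nonneg _)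
              rw [div_le_div_iff₀ (by norm_num) (by positivity)]
              have a1 : α ^ 2 ≤ 1 := by nlinarith
              have a2 : (1 - β) ≤ 1 := by linarith
              have a3 : (1 - β) ^ 2 * (2 * (1 + 4 / (1 - β))) = 2 * (1 - β) ^ 2 + 8 * (1 - β) := by
                field_simp; ring
              have a4 : 2 * (1 - β) ^ 2 + 8 * (1 - β) ≤ 10 := by nlinarith
              have a5 : 0 ≤ 2 * (1 - β) ^ 2 + 8 * (1 - β) := by positivity
              calc α ^ 2 * (1 - β) ^ 2 * (2 * (1 + 4 / (1 - β))) =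
                  α ^ 2 * ((1 - β) ^ 2 * (2 * (1 + 4 / (1 - β)))) := by ring
                _ = α ^ 2 * (2 * (1 - β) ^ 2 + 8 * (1 - β)) := by rw [a3]
                _ ≤ 1 * 10 := mul_le_mul a1 a4 a5 (by norm_num)
                _ ≤ 1 * 1024 := by norm_num
            · exact absurd h1 (not_lt.2 hlam)
        _ = ENNReal.ofReal ((inn N).card *
            Real.exp (-(α ^ 2 * (1 - β) ^ 2 / 1024 * lam ^ 2))) := by
            rw [Finset.sum_const, nsmul_eq_mul, ENNReal.ofReal_mul (by positivity)]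
            simp
        _ ≤ _ := by
            apply ENNReal.ofReal_le_ofReal
            apply mul_le_mul_of_nonneg_right _ (Real.exp_pos _).le
            have h1 : ((inn N).card : ℝ) ≤ (N : ℝ) ^ 2 := by
              have := Finset.card_le_card (inn_subset_box N)
              rw [card_box] at this
              exact_mod_cast this
            have h2 : (N : ℝ) ^ 2 ≤ (2 / (1 - β)) ^ 2 := pow_le_pow_left₀ (by positivity) hNle 2
            have h3 : (2 / (1 - β)) ^ 2 = 4 / (1 - β) ^ 2 := by rw [div_pow]; norm_num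
            linarith
  · intro lam
    set c : ℝ := α ^ 2 * (1 - β) ^ 2 / 1024 with hc
    have hcpos : 0 < c := by rw [hc]; positivity
    set lam1 : ℝ := max lam (√(3 / c)) with hlam1
    have hlam1pos : 0 < lam1 := lt_of_lt_of_le (Real.sqrt_pos.2 (by positivity)) (le_max_right _ _)
    have hlam1sq : 3 ≤ c * lam1 ^ 2 := by
      have h1 : 3 / c ≤ lam1 ^ 2 := by
        have h2 : √(3 / c) ≤ lam1 := le_max_right _ _
        calc 3 / c = √(3 / c) ^ 2 := (Real.sq_sqrt (by positivity)).symm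
          _ ≤ lam1 ^ 2 := pow_le_pow_left₀ (Real.sqrt_nonneg _) h2 2
      rw [div_le_iff₀ hcpos] at h1
      linarith
    set b : ℝ := √(8 / α) with hbdef
    have hb2 : b ^ 2 = 8 / α := Real.sq_sqrt (by positivity)
    set κ' : ℝ := 32 / (1 - β) ^ 2 with hκ'
    set g : ℝ≥0∞ := gaussianReal 0 1 (Set.Iic (-((lam1 + b - lam) * √κ'))) with hg
    have hgpos : 0 < g := gauss_pos _
    have hgtop : g ≠ ∞ := measure_ne_top _ _
    refine ⟨1 / 2 * g.toReal, mul_pos (by norm_num) (ENNReal.toReal_pos hgpos.ne' hgtop), ?_⟩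
    intro N hN hNl Ω _ μ η h
    have hN2 := two_le_of hα hα1 hN
    obtain ⟨η', h', hm', hae⟩ := h.modify
    have hl := h'.large hm' hα hαβ hβ hN hNl hlam1pos (floor_ge hN2 α β)
    obtain ⟨hM, hMK, d, hd, hKd, hd4⟩ := geom hα hαβ hβ hN hNl
    have hNpos : 0 < N := by omega
    have hNr : (0 : ℝ) < N := by exact_mod_cast hNpos
    have hU : box ⌊β * N⌋₊ ⊆ inn N := box_subset_inn (by omega)
    have hS : bd ⌊α * N⌋₊ ⊆ box ⌊β * N⌋₊ := (bd_subset_box _).trans (box_mono hMK)
    have hdr : (0 : ℝ) < d := by exact_mod_cast (show 0 < d by omega)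
    have hκ : D (cut N d) (cut N d) ≤ κ' := by
      refine (D_cut hd).trans ?_
      rw [hκ', div_le_div_iff₀ (by positivity) (by positivity)]
      have h5 : ((1 - β) * N / 4) ^ 2 ≤ (d : ℝ) ^ 2 := pow_le_pow_left₀ (by positivity) hd4 2
      have h6 : ((1 - β) * N / 4) ^ 2 = (1 - β) ^ 2 * N ^ 2 / 16 := by ring
      rw [h6] at h5
      nlinarith
    have hκ0 : α / 2 ≤ D (cut N d) (cut N d) := by
      have h1 : cp (inn N) (bd ⌊α * N⌋₊) ≤ D (cut N d) (cut N d) :=
        cp_le (hS.trans hU) (fun v hv => cut_zero hv) (fun v hv => cut_one hd hKd (hS hv))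
      refine le_trans ?_ h1
      refine le_trans ?_ (cp_lower hM (by omega))
      rw [le_div_iff₀ hNr]
      have := floor_half hN
      linarith
    have hgood : μ {ω | ¬ Reach (box ⌊β * N⌋₊) (bd ⌊α * N⌋₊) (bd ⌊β * N⌋₊) (fun v => η' v ω) lam1
        ⌊2 * CC α β * N * √(Real.log N)⌋₊} ≤ ENNReal.ofReal (1 / 4) := by
      refine hl.trans (ENNReal.ofReal_le_ofReal ?_)
      have h1 : Real.exp (-(c * lam1 ^ 2)) ≤ Real.exp (-3) := by
        apply Real.exp_le_exp.2; linarith
      have h2 : (12 : ℝ) ≤ Real.exp 3 := by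
        have := Real.exp_one_gt_d9
        have e2 : Real.exp 3 = Real.exp 1 * Real.exp 1 * Real.exp 1 := by
          rw [← Real.exp_add, ← Real.exp_add]; norm_num
        rw [e2]
        have h3 : (7 : ℝ) ≤ Real.exp 1 * Real.exp 1 := by nlinarith
        nlinarith
      have h3 : Real.exp (-3) ≤ 1 / 12 := by
        rw [Real.exp_neg, one_div]
        exact inv_anti₀ (by norm_num) h2
      linarith
    have hlev := h'.level hm' hU hS (bd_subset_box _) (F := cut N d) (fun v hv => cut_zero hv)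
      (fun v hv => cut_one hd hKd hv) (lam := lam) (lam1 := lam1) (b := b) (κ' := κ')
      (R := ⌊2 * CC α β * N * √(Real.log N)⌋₊) (Real.sqrt_nonneg _) (by
        rw [hb2]
        calc (2 : ℝ) * 2 = 8 / α * (α / 2) := by field_simp; norm_num
          _ ≤ 8 / α * D (cut N d) (cut N d) := by
            apply mul_le_mul_of_nonneg_left hκ0 (by positivity))
      hκ (by
        have : lam ≤ lam1 := le_max_left _ _
        have : 0 ≤ b := Real.sqrt_nonneg _
        linarith) hgood
    have e1 : ENNReal.ofReal (1 / 2 * g.toReal) = ENNReal.ofReal (1 / 2) * g := by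
      rw [ENNReal.ofReal_mul (by norm_num), ENNReal.ofReal_toReal hgtop]
    rw [e1]
    refine hlev.trans ?_
    have hxpos : 0 ≤ 2 * CC α β * N * √(Real.log N) := by positivity
    have hKN : box ⌊β * N⌋₊ ⊆ box N := box_mono (by omega)
    apply measure_mono_ae
    filter_upwards [hae] with ω hω
    intro h2
    exact chem_le (N := N) hα hαβ hβ hxpos (x := fun v => η v ω) (lam := lam)
      (Reach.mono ((bd_subset_box _).trans (box_mono hMK)) (bd_subset_box _) h2
        (fun v hv hv' => by rw [hω v (hKN hv)]; exact hv'))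

end Pool.H92.GFF.SqrtLogCrossing
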