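import Pool.Agent.helper92.GFF.Prob

/-!
Tail bounds.
-/

namespace Pool.H92.GFF

open Function Finset MeasureTheory ProbabilityTheory
open scoped Classical ENNReal NNReal

variable {N : ℕ} {Ω : Type*} [MeasurableSpace Ω] {μ : Measure Ω} {η : V → Ω → ℝ}

lemma markov_avg {ι : Type*} (J : Finset ι) (hJ : J.Nonempty) (Z : ι → Ω → ℝ)
    (hZ : ∀ j ∈ J, Measurable (Z j)) (c : ℝ≥0∞)
    (hc : ∀ j ∈ J, ∫⁻ ω, ENNReal.ofReal (Real.exp (Z j ω)) ∂μ ≤ c) (A : ℝ) :
    μ {ω | A ≤ ∑ j ∈ J, Z j ω} ≤ ENNReal.ofReal (Real.exp (-(A / (J.card : ℝ)))) * c := by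
  have hJc : (0 : ℝ) < J.card := by exact_mod_cast hJ.card_pos
  set g : Ω → ℝ≥0∞ := fun ω => ENNReal.ofReal (Real.exp (-(A / (J.card : ℝ)))) *
    ∑ j ∈ J, ENNReal.ofReal (1 / (J.card : ℝ)) * ENNReal.ofReal (Real.exp (Z j ω)) with hg
  have hmj : ∀ j ∈ J, Measurable (fun ω => ENNReal.ofReal (Real.exp (Z j ω))) := fun j hj =>
    ENNReal.measurable_ofReal.comp (Real.measurable_exp.comp (hZ j hj))
  have hmj' : ∀ j ∈ J, Measurable (fun ω => ENNReal.ofReal (1 / (J.card : ℝ)) *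
      ENNReal.ofReal (Real.exp (Z j ω))) := fun j hj => (hmj j hj).const_mul _
  have hsm : Measurable (fun ω => ∑ j ∈ J, ENNReal.ofReal (1 / (J.card : ℝ)) *
      ENNReal.ofReal (Real.exp (Z j ω))) := Finset.measurable_sum _ hmj'
  have hgm : Measurable g := hsm.const_mul _
  have h1 := mul_meas_ge_le_lintegral (μ := μ) hgm 1
  rw [one_mul] at h1
  have h2 : {ω | A ≤ ∑ j ∈ J, Z j ω} ⊆ {ω | 1 ≤ g ω} := by
    intro ω hω
    have hω' : A ≤ ∑ j ∈ J, Z j ω := hω
    show 1 ≤ g ω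
    have hconv := convexOn_exp.map_sum_le (t := J) (w := fun _ => 1 / (J.card : ℝ))
      (p := fun j => Z j ω) (fun _ _ => by positivity)
      (by rw [Finset.sum_const, nsmul_eq_mul]; field_simp) (fun _ _ => Set.mem_univ _)
    simp only [smul_eq_mul] at hconv
    rw [← Finset.mul_sum] at hconv
    have e : g ω = ENNReal.ofReal (Real.exp (-(A / (J.card : ℝ))) *
        ∑ j ∈ J, (1 / (J.card : ℝ)) * Real.exp (Z j ω)) := by
      simp only [hg]
      rw [ENNReal.ofReal_mul (Real.exp_pos _).le, ENNReal.ofReal_sum_of_nonneg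
        (fun j _ => by positivity)]
      congr 1
      refine Finset.sum_congr rfl (fun j _ => ?_)
      rw [ENNReal.ofReal_mul (by positivity)]
    rw [e, show (1 : ℝ≥0∞) = ENNReal.ofReal 1 by simp]
    apply ENNReal.ofReal_le_ofReal
    calc (1 : ℝ) = Real.exp (-(A / (J.card : ℝ))) * Real.exp (A / J.card) := by
          rw [← Real.exp_add]; simp
      _ ≤ Real.exp (-(A / (J.card : ℝ))) * Real.exp (1 / (J.card : ℝ) * ∑ j ∈ J, Z j ω) := by
          apply mul_le_mul_of_nonneg_left _ (Real.exp_pos _).le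
          apply Real.exp_le_exp.2
          rw [one_div, inv_mul_eq_div]
          exact div_le_div_of_nonneg_right hω' hJc.le
      _ ≤ _ := mul_le_mul_of_nonneg_left hconv (Real.exp_pos _).le
  refine (measure_mono h2).trans (h1.trans ?_)
  simp only [hg]
  rw [lintegral_const_mul _ hsm]
  gcongr
  rw [lintegral_finsetSum _ hmj']
  calc ∑ j ∈ J, ∫⁻ ω, ENNReal.ofReal (1 / (J.card : ℝ)) * ENNReal.ofReal (Real.exp (Z j ω)) ∂μ
      ≤ ∑ j ∈ J, ENNReal.ofReal (1 / (J.card : ℝ)) * c := by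
        refine Finset.sum_le_sum (fun j hj => ?_)
        rw [lintegral_const_mul _ (hmj j hj)]
        gcongr
        exact hc j hj
    _ = c := by
        rw [Finset.sum_const, nsmul_eq_mul, ← mul_assoc]
        have : (J.card : ℝ≥0∞) * ENNReal.ofReal (1 / (J.card : ℝ)) = 1 := by
          rw [show (J.card : ℝ≥0∞) = ENNReal.ofReal (J.card : ℝ) by simp,
            ← ENNReal.ofReal_mul hJc.le]
          rw [mul_one_div_cancel hJc.ne']; simp
        rw [this, one_mul]

/-- Chernoff bound -/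
lemma chernoff {Y : Ω → ℝ} (hY : HasGaussianLaw Y μ) (hYm : Measurable Y)
    (h0 : ∫ ω, Y ω ∂μ = 0) {v A : ℝ} (hv : 0 < v) (hvar : Var[Y; μ] ≤ v) :
    μ {ω | A ≤ Y ω} ≤ ENNReal.ofReal (Real.exp (-(A ^ 2 / (2 * v)))) ∨ A < 0 := by
  by_cases hA : A < 0
  · exact Or.inr hA
  left
  push Not at hA
  have h1 := lintegral_exp_gauss hY h0 (A / v)
  have h2 := markov_avg (μ := μ) ({()} : Finset Unit) (by simp) (fun _ ω => A / v * Y ω)
    (fun _ _ => hYm.const_mul _) _ (fun _ _ => le_of_eq h1) (A ^ 2 / v)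
  simp only [Finset.sum_singleton, Finset.card_singleton, Nat.cast_one, div_one] at h2
  rw [← ENNReal.ofReal_mul (Real.exp_pos _).le, ← Real.exp_add] at h2
  have h3 : {ω | A ≤ Y ω} ⊆ {ω | A ^ 2 / v ≤ A / v * Y ω} := by
    intro ω hω
    have hω' : A ≤ Y ω := hω
    show A ^ 2 / v ≤ A / v * Y ω
    rw [pow_two, mul_div_right_comm]
    exact mul_le_mul_of_nonneg_left hω' (div_nonneg hA hv.le)
  refine (measure_mono h3).trans (h2.trans ?_)
  apply ENNReal.ofReal_le_ofReal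
  apply Real.exp_le_exp.2
  have h4 : (A / v) ^ 2 * Var[Y; μ] / 2 ≤ (A / v) ^ 2 * v / 2 := by
    have : 0 ≤ (A / v) ^ 2 := sq_nonneg _
    nlinarith
  have h5 : (A / v) ^ 2 * v / 2 = A ^ 2 / (2 * v) := by
    field_simp
  have h6 : A ^ 2 / v = 2 * (A ^ 2 / (2 * v)) := by
    field_simp
  linarith

/-- exponential moment of the square -/
lemma exp_sq_moment {Y : Ω → ℝ} (hY : HasGaussianLaw Y μ)
    (h0 : ∫ ω, Y ω ∂μ = 0) {s : ℝ} (hs : 0 ≤ s) (hvar : 4 * s * Var[Y; μ] ≤ 1) :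
    ∫⁻ ω, ENNReal.ofReal (Real.exp (s * Y ω ^ 2)) ∂μ ≤ ENNReal.ofReal 2 := by
  have hlaw := law_of_gauss hY h0
  have hme : Measurable (fun y : ℝ => ENNReal.ofReal (Real.exp (s * y ^ 2))) := by fun_prop
  have e : ∫⁻ ω, ENNReal.ofReal (Real.exp (s * Y ω ^ 2)) ∂μ =
      ∫⁻ y, ENNReal.ofReal (Real.exp (s * y ^ 2)) ∂(gaussianReal 0 (Var[Y; μ]).toNNReal) := by
    rw [← hlaw, lintegral_map' hme.aemeasurable hY.aemeasurable]
  rw [e]
  set v : ℝ≥0 := (Var[Y; μ]).toNNReal with hv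
  have hvv : (v : ℝ) = Var[Y; μ] := Real.coe_toNNReal _ (variance_nonneg _ _)
  rw [← hvv] at hvar
  by_cases hv0 : v = 0
  · rw [hv0, gaussianReal_zero_var, lintegral_dirac' _ hme]
    apply ENNReal.ofReal_le_ofReal
    norm_num
  have hvpos : (0 : ℝ) < v := by
    have : 0 < v := pos_iff_ne_zero.2 hv0
    exact_mod_cast this
  rw [gaussianReal_of_var_ne_zero _ hv0, lintegral_withDensity_eq_lintegral_mul _
    (measurable_gaussianPDF 0 v) hme]
  set b : ℝ := 1 / (2 * v) - s with hb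
  have hbpos : 1 / (4 * v) ≤ b := by
    have h1 : s ≤ 1 / (4 * v) := by
      rw [le_div_iff₀ (by positivity)]; linarith
    have h2 : 1 / (2 * (v : ℝ)) = 1 / (4 * v) + 1 / (4 * v) := by field_simp; norm_num
    rw [hb, h2]; linarith
  have hb0 : 0 < b := lt_of_lt_of_le (by positivity) hbpos
  have e2 : ∀ y : ℝ, (gaussianPDF 0 v * fun y => ENNReal.ofReal (Real.exp (s * y ^ 2))) y =
      ENNReal.ofReal ((√(2 * Real.pi * v))⁻¹ * Real.exp (-b * y ^ 2)) := by
    intro y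
    rw [Pi.mul_apply, gaussianPDF, gaussianPDFReal, ← ENNReal.ofReal_mul (by positivity),
      mul_assoc, ← Real.exp_add]
    congr 3
    rw [hb]
    field_simp
    ring
  rw [lintegral_congr e2, ← ofReal_integral_eq_lintegral_ofReal
    ((integrable_exp_neg_mul_sq hb0).const_mul _)
    (Filter.Eventually.of_forall (fun y => by positivity)), integral_const_mul, integral_gaussian]
  apply ENNReal.ofReal_le_ofReal
  rw [← Real.sqrt_inv, ← Real.sqrt_mul (by positivity)]
  rw [Real.sqrt_le_left (by norm_num)]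
  have h1 : (2 * Real.pi * (v : ℝ))⁻¹ * (Real.pi / b) = (1 / (2 * v)) / b := by
    have := Real.pi_pos.ne'
    field_simp
  rw [h1, div_le_iff₀ hb0]
  have h2 : 1 / (2 * (v : ℝ)) = 2 * (1 / (4 * v)) := by field_simp; norm_num
  rw [h2]
  nlinarith [hbpos]

/-- pointwise variance bound -/
lemma IsDGFF.var_eta (h : IsDGFF N μ η) {v : V} (hv : v ∈ inn N) :
    Var[η v; μ] ≤ 1 + Real.log (2 * N) := by
  have := h.isProb
  obtain ⟨f, hf0, hf1⟩ := exists_dirichlet (inn N) (fun _ => 0) (fun u => if u = v then 1 else 0)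
  have hX : XX N η f = η v := by
    ext ω
    unfold XX
    rw [Finset.sum_eq_single v]
    · rw [hf1 v hv]; simp
    · intro u hu huv
      rw [hf1 u hu, if_neg huv, zero_mul]
    · intro hh; exact absurd hv hh
  have h1 := h.cov_eta_XX hf0 hv
  have h2 := h.var_XX hf0
  rw [hX] at h1 h2
  rw [covariance_self (h.memLp (inn_subset_box N hv)).aestronglyMeasurable.aemeasurable] at h1
  have h3 := polya f hf0 v hv
  rw [← h1, ← h2] at h3
  have h4 := variance_nonneg (η v) μ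
  by_contra hcon
  push Not at hcon
  have hN : (1 : ℝ) ≤ N := by
    have : 1 ≤ N := by rw [mem_inn] at hv; omega
    exact_mod_cast this
  have h5 : 0 ≤ Real.log (2 * N) := Real.log_nonneg (by linarith)
  nlinarith

end Pool.H92.GFF
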